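import Pool.Agent.AWP.Targets

set_option autoImplicit false

namespace Pool.Agent.AWP

open Polynomial Finset
open scoped BigOperators

namespace CRTB_

/-- an integer congruent to zero modulo finitely many primes -/
lemma dvd_of_primes (s : Finset ℕ) (hs : ∀ p ∈ s, p.Prime) (z : ℤ)
    (h : ∀ p ∈ s, (p : ℤ) ∣ z) : ((∏ p ∈ s, p : ℕ) : ℤ) ∣ z := by
  rw [← Int.dvd_natAbs, Int.natCast_dvd_natCast]
  exact Finset.prod_primes_dvd _ (fun p hp => (hs p hp).prime) (fun p hp => by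
    rw [← Int.natCast_dvd_natCast, Int.dvd_natAbs]
    exact h p hp)

/-- the counting argument -/
lemma count (ι : Type) [Fintype ι] (s : Finset ℕ) (hs : ∀ p ∈ s, p.Prime)
    (B : (p : ℕ) → Set (ι → ZMod p)) (H : ι → ℕ) :
    {x : ι → ℤ | (∀ i, |x i| ≤ H i) ∧ ∀ p ∈ s, (fun i => (x i : ZMod p)) ∈ B p}.ncard ≤
      (∏ p ∈ s, (B p).ncard) * ∏ i, ((2 * H i) / (∏ p ∈ s, p) + 1) := by
  classical
  set q : ℕ := ∏ p ∈ s, p with hq
  have hq0 : 0 < q := Finset.prod_pos (fun p hp => (hs p hp).pos)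
  have hfin : ∀ p ∈ s, (B p).Finite := by
    intro p hp
    have : NeZero p := ⟨(hs p hp).ne_zero⟩
    exact Set.toFinite _
  let Bf : (p : s) → Finset (ι → ZMod (p : ℕ)) := fun p => (hfin p p.2).toFinset
  let t : Finset (((p : s) → (ι → ZMod (p : ℕ))) × (ι → ℕ)) :=
    Fintype.piFinset Bf ×ˢ Fintype.piFinset (fun i : ι => Finset.range ((2 * H i) / q + 1))
  have hcard : t.card = (∏ p ∈ s, (B p).ncard) * ∏ i, ((2 * H i) / q + 1) := by
    rw [Finset.card_product, Fintype.card_piFinset, Fintype.card_piFinset]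
    congr 1
    · rw [← Finset.prod_coe_sort s (fun p => (B p).ncard)]
      refine Finset.prod_congr rfl (fun p _ => ?_)
      rw [Set.ncard_eq_toFinset_card (B p) (hfin p p.2)]
    · refine Finset.prod_congr rfl (fun i _ => ?_)
      rw [Finset.card_range]
  rw [← hcard, ← Set.ncard_coe_finset]
  refine Set.ncard_le_ncard_of_injOn
    (fun x : ι → ℤ => ((fun p : s => (fun i => ((x i : ℤ) : ZMod (p : ℕ)))),
      (fun i => ((x i + H i) / (q : ℤ)).toNat))) ?_ ?_ t.finite_toSet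
  · rintro x ⟨hx1, hx2⟩
    rw [Finset.mem_coe, Finset.mem_product, Fintype.mem_piFinset, Fintype.mem_piFinset]
    refine ⟨fun p => ?_, fun i => ?_⟩
    · rw [Set.Finite.mem_toFinset]
      exact hx2 p p.2
    · rw [Finset.mem_range]
      have h1 := abs_le.1 (hx1 i)
      have h2 : (x i + H i) / (q : ℤ) ≤ (2 * H i : ℤ) / (q : ℤ) :=
        Int.ediv_le_ediv (by exact_mod_cast hq0) (by linarith)
      have h3 : ((2 * H i : ℤ) / (q : ℤ)) = (((2 * H i) / q : ℕ) : ℤ) := by push_cast; rfl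
      have h4 : 0 ≤ (x i + H i) / (q : ℤ) := Int.ediv_nonneg (by linarith) (by positivity)
      rw [h3] at h2
      show ((x i + H i) / (q : ℤ)).toNat < (2 * H i) / q + 1
      omega
  · rintro x ⟨hx1, hx2⟩ y ⟨hy1, hy2⟩ hxy
    funext i
    have h1 := congrArg Prod.fst hxy
    have h2 := congrFun (congrArg Prod.snd hxy) i
    have hdvd : (q : ℤ) ∣ x i - y i := by
      refine dvd_of_primes s hs _ (fun p hp => ?_)
      have h3 := congrFun (congrFun h1 ⟨p, hp⟩) i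
      have h4 : ((x i : ℤ) : ZMod p) = ((y i : ℤ) : ZMod p) := h3
      have h5 : ((x i - y i : ℤ) : ZMod p) = 0 := by
        push_cast
        rw [h4, sub_self]
      exact (ZMod.intCast_zmod_eq_zero_iff_dvd _ p).1 h5
    have hx' := abs_le.1 (hx1 i)
    have hy' := abs_le.1 (hy1 i)
    have h4 : 0 ≤ (x i + H i) / (q : ℤ) := Int.ediv_nonneg (by linarith) (by positivity)
    have h5 : 0 ≤ (y i + H i) / (q : ℤ) := Int.ediv_nonneg (by linarith) (by positivity)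
    have h6 : (x i + H i) / (q : ℤ) = (y i + H i) / (q : ℤ) := by
      have h7 : ((x i + H i) / (q : ℤ)).toNat = ((y i + H i) / (q : ℤ)).toNat := h2
      omega
    have hqz : (0 : ℤ) < q := by exact_mod_cast hq0
    have h8 := Int.emod_add_mul_ediv (x i + H i) q
    have h9 := Int.emod_add_mul_ediv (y i + H i) q
    have h10 := Int.emod_nonneg (x i + H i) hqz.ne'
    have h11 := Int.emod_nonneg (y i + H i) hqz.ne'
    have h12 := Int.emod_lt_of_pos (x i + H i) hqz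
    have h13 := Int.emod_lt_of_pos (y i + H i) hqz
    rw [h6] at h8
    obtain ⟨c, hc⟩ := hdvd
    have h14 : (q : ℤ) * c < q * 1 := by rw [← hc]; linarith
    have h15 : (q : ℤ) * (-1) < q * c := by rw [← hc]; linarith
    have h16 : c < 1 := lt_of_mul_lt_mul_left h14 hqz.le
    have h17 : -1 < c := lt_of_mul_lt_mul_left h15 hqz.le
    have h18 : c = 0 := by omega
    rw [h18, mul_zero] at hc
    linarith

end CRTB_

open CRTB_ in
theorem p_CRTB : T_CRTB := by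
  intro ι _ P hP B S hS
  set q : ℕ := ∏ l ∈ P, l with hq
  have hq0 : 0 < q := Finset.prod_pos (fun l hl => (hP l hl).pos)
  have hq0' : (0 : ℝ) < q := by exact_mod_cast hq0
  have hqc : ∏ l ∈ P, (l : ℝ) = q := by rw [hq, Nat.cast_prod]
  set H : ι → ℕ := fun i => ⌊S i⌋₊ with hH
  have hset : {x : ι → ℤ | (∀ i, |(x i : ℝ)| ≤ S i) ∧
      ∀ l ∈ P, (fun i => (x i : ZMod l)) ∈ B l} =
      {x : ι → ℤ | (∀ i, |x i| ≤ H i) ∧ ∀ l ∈ P, (fun i => (x i : ZMod l)) ∈ B l} := by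
    ext x
    have hi : ∀ i, |(x i : ℝ)| ≤ S i ↔ |x i| ≤ H i := by
      intro i
      have e1 : |(x i : ℝ)| = ((x i).natAbs : ℝ) := by
        rw [Nat.cast_natAbs, Int.cast_abs]
      have e2 : |x i| = ((x i).natAbs : ℤ) := (Int.natCast_natAbs _).symm
      rw [e1, e2, Nat.cast_le, hH, Nat.le_floor_iff (hS i)]
    constructor
    · rintro ⟨h1, h2⟩
      exact ⟨fun i => (hi i).1 (h1 i), h2⟩
    · rintro ⟨h1, h2⟩
      exact ⟨fun i => (hi i).2 (h1 i), h2⟩
  rw [hset, hqc]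
  have h1 := count ι P hP B H
  rw [← hq] at h1
  have h2 : (({x : ι → ℤ | (∀ i, |x i| ≤ H i) ∧
      ∀ l ∈ P, (fun i => (x i : ZMod l)) ∈ B l}.ncard : ℕ) : ℝ) ≤
      (∏ l ∈ P, ((B l).ncard : ℝ)) * ∏ i, (((2 * H i) / q + 1 : ℕ) : ℝ) := by
    have h3 := (Nat.cast_le (α := ℝ)).2 h1
    rwa [Nat.cast_mul, Nat.cast_prod, Nat.cast_prod] at h3
  refine h2.trans ?_
  have h3 : ∏ i, (((2 * H i) / q + 1 : ℕ) : ℝ) ≤ ∏ i, ((2 * S i + 1 + q) / q) := by
    refine Finset.prod_le_prod (fun i _ => Nat.cast_nonneg _) (fun i _ => ?_)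
    rw [le_div_iff₀ hq0']
    have h6 : ((2 * H i) / q + 1) * q ≤ 2 * H i + q := by
      rw [add_mul, one_mul]
      exact Nat.add_le_add_right (Nat.div_mul_le_self _ _) _
    have h7 : ((((2 * H i) / q + 1 : ℕ) : ℝ)) * q ≤ 2 * H i + q := by exact_mod_cast h6
    have h8 : (H i : ℝ) ≤ S i := Nat.floor_le (hS i)
    linarith
  have h4 : ∏ i, ((2 * S i + 1 + q) / q) = (∏ i, (2 * S i + 1 + (q : ℝ))) / (q : ℝ) ^ Fintype.card ι := by
    rw [Finset.prod_div_distrib, Finset.prod_const, Finset.card_univ]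
  have h5 : ∏ l ∈ P, (((B l).ncard : ℕ) : ℝ) / (l : ℝ) ^ Fintype.card ι =
      (∏ l ∈ P, ((B l).ncard : ℝ)) / (q : ℝ) ^ Fintype.card ι := by
    rw [Finset.prod_div_distrib, Finset.prod_pow, hqc]
  rw [h5]
  calc (∏ l ∈ P, ((B l).ncard : ℝ)) * ∏ i, (((2 * H i) / q + 1 : ℕ) : ℝ)
      ≤ (∏ l ∈ P, ((B l).ncard : ℝ)) * ∏ i, ((2 * S i + 1 + q) / q) :=
        mul_le_mul_of_nonneg_left h3 (Finset.prod_nonneg fun l _ => Nat.cast_nonneg _)
    _ = (∏ l ∈ P, ((B l).ncard : ℝ)) / (q : ℝ) ^ Fintype.card ι *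
        ∏ i, (2 * S i + 1 + (q : ℝ)) := by rw [h4]; ring

end Pool.Agent.AWP
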