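import Pool.Agent.AWP.Targets
import Pool.Agent.FFT.MATCH

set_option autoImplicit false

/-!
# FIN: all flips and no quotient a root of unity: only divisorial Tate weights
-/

namespace Pool.Agent.AWP

open Polynomial Finset
open Pool.Agent.CMT (QBar)
open scoped BigOperators

namespace FIN_

theorem aeval_weil {g : ℕ} (q : ℕ) (b : Fin g → ℤ) (α : QBar) :
    aeval α (weil q b) = (α ^ 2 + q) ^ g +
      ∑ i : Fin g, (b i : QBar) * α ^ (i.val + 1) * (α ^ 2 + q) ^ (g - 1 - i.val) := by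
  unfold weil
  simp

theorem aeval_poly {g : ℕ} (b : Fin g → ℤ) (y : QBar) :
    aeval y (poly b) = y ^ g + ∑ i : Fin g, (b i : QBar) * y ^ (g - 1 - i.val) := by
  unfold poly
  simp

theorem aeval_weil_mul {g : ℕ} (q : ℕ) (b : Fin g → ℤ) (α y : QBar)
    (h : α ^ 2 + q = α * y) :
    aeval α (weil q b) = α ^ g * aeval y (poly b) := by
  rw [aeval_weil, aeval_poly, h, mul_add, Finset.mul_sum, mul_pow]
  congr 1
  refine Finset.sum_congr rfl fun i _ => ?_
  have h1 : α ^ g = α ^ (i.val + 1) * α ^ (g - 1 - i.val) := by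
    rw [← pow_add]
    congr 1
    have := i.isLt
    omega
  rw [h1, mul_pow]
  ring

theorem root_ne_zero {g : ℕ} {q : ℕ} (hq : 0 < q) {b : Fin g → ℤ} {α : QBar}
    (h : aeval α (weil q b) = 0) : α ≠ 0 := by
  rintro rfl
  rw [aeval_weil] at h
  simp only [ne_eq, OfNat.ofNat_ne_zero, not_false_eq_true, zero_pow, zero_add,
    Nat.succ_ne_zero, mul_zero, zero_mul, Finset.sum_const_zero, add_zero] at h
  have h1 : (q : QBar) ≠ 0 := by exact_mod_cast hq.ne'
  exact pow_ne_zero _ h1 h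

theorem root_poly {g : ℕ} {q : ℕ} (hq : 0 < q) {b : Fin g → ℤ} {α : QBar}
    (h : aeval α (weil q b) = 0) : aeval (α + q / α) (poly b) = 0 := by
  have h0 := root_ne_zero hq h
  have h1 : α ^ 2 + q = α * (α + q / α) := by
    field_simp
  rw [aeval_weil_mul q b α _ h1] at h
  exact (mul_eq_zero.1 h).resolve_left (pow_ne_zero _ h0)

theorem root_conj {g : ℕ} {q : ℕ} (hq : 0 < q) {b : Fin g → ℤ} {α : QBar}
    (h : aeval α (weil q b) = 0) : aeval ((q : QBar) / α) (weil q b) = 0 := by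
  have h0 := root_ne_zero hq h
  have hq0 : (q : QBar) ≠ 0 := by exact_mod_cast hq.ne'
  have h1 : ((q : QBar) / α) ^ 2 + q = (q / α) * (α + q / α) := by
    field_simp
    ring
  rw [aeval_weil_mul q b _ _ h1, root_poly hq h, mul_zero]

theorem quad {q : ℕ} {α : QBar} (h0 : α ≠ 0) :
    α ^ 2 - (α + q / α) * α + q = 0 := by
  field_simp
  ring

theorem quad_conj {q : ℕ} {α : QBar} (h0 : α ≠ 0) :
    ((q : QBar) / α) ^ 2 - (α + q / α) * (q / α) + q = 0 := by
  field_simp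
  ring

theorem quad_roots {q : ℕ} {α β : QBar} (hα : α ≠ 0)
    (h : β ^ 2 - (α + q / α) * β + q = 0) : β = α ∨ β = q / α := by
  have h1 : (β - α) * (β - q / α) = 0 := by
    have h2 : α * ((q : QBar) / α) = q := by field_simp
    have h3 : (β - α) * (β - q / α) = β ^ 2 - (α + q / α) * β + α * (q / α) := by ring
    rw [h3, h2, h]
  rcases mul_eq_zero.1 h1 with h2 | h2
  · exact Or.inl (sub_eq_zero.1 h2)
  · exact Or.inr (sub_eq_zero.1 h2)

theorem ne_conj {q : ℕ} {α : QBar} (hα : α ≠ 0) (h : (α + q / α) ^ 2 ≠ 4 * (q : QBar)) :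
    α ≠ q / α := by
  intro h1
  apply h
  have h2 : α * α = q := by
    rw [eq_div_iff hα] at h1
    exact h1
  rw [← h1]
  rw [← h2]
  ring

theorem finite_root {g : ℕ} {q : ℕ} {b : Fin g → ℤ} (h : weil q b ≠ 0) :
    Finite (Root q b) := by
  have h1 := Polynomial.rootSet_finite (weil q b) QBar
  have h2 : {α : QBar | aeval α (weil q b) = 0} ⊆ (weil q b).rootSet QBar := by
    intro α hα
    exact (Polynomial.mem_rootSet).2 ⟨h, hα⟩
  exact (h1.subset h2).to_subtype

open Classical in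
theorem mult_eq {r : ℕ} {g : Fin r → ℕ} {q : ℕ} {b : ∀ j, Fin (g j) → ℤ} {n : Fin r → ℕ}
    (Δ : Finset (Idx q b n)) (j : Fin r) (α : Root q (b j)) :
    (Δ.filter (fun x => x.1 = j ∧ x.2.1.1 = α.1)).card =
      {s : Fin (n j) | (⟨j, α, s⟩ : Idx q b n) ∈ Δ}.ncard := by
  rw [← Set.ncard_coe_finset]
  have h1 : ((Δ.filter (fun x => x.1 = j ∧ x.2.1.1 = α.1) : Finset (Idx q b n)) :
      Set (Idx q b n)) =
      (fun s : Fin (n j) => (⟨j, α, s⟩ : Idx q b n)) ''
        {s : Fin (n j) | (⟨j, α, s⟩ : Idx q b n) ∈ Δ} := by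
    ext x
    rw [Finset.mem_coe, Finset.mem_filter]
    constructor
    · rintro ⟨h2, h3, h4⟩
      obtain ⟨j', β, s⟩ := x
      obtain rfl : j' = j := h3
      obtain rfl : β = α := Subtype.ext h4
      exact ⟨s, h2, rfl⟩
    · rintro ⟨s, h2, rfl⟩
      exact ⟨h2, rfl, rfl⟩
  rw [h1, Set.ncard_image_of_injective]
  intro s t hst
  have h2 := eq_of_heq (Sigma.mk.inj hst).2
  exact (Prod.mk.inj h2).2

/-- equal powers: if the quotient is not a root of unity then the exponents agree -/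
theorem expo {q : ℕ} (hq : 0 < q) {α : QBar} (hα : α ≠ 0) (N : ℕ) (hN : 0 < N)
    (hrou : ∀ N : ℕ, 0 < N → (α ^ 2) ^ N ≠ (q : QBar) ^ N) (a c : ℕ)
    (h : ((α ^ 2 / q) ^ a * ((α ^ 2 / q)⁻¹) ^ c) ^ N = 1) : a = c := by
  have hq0 : (q : QBar) ≠ 0 := by exact_mod_cast hq.ne'
  have hu : (α ^ 2 / (q : QBar)) ≠ 0 := div_ne_zero (pow_ne_zero _ hα) hq0
  have key : ∀ m : ℕ, 0 < m → (α ^ 2 / (q : QBar)) ^ m ≠ 1 := by
    intro m hm h1
    rw [div_pow, div_eq_one_iff_eq (pow_ne_zero _ hq0)] at h1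
    exact hrou m hm h1
  set u := α ^ 2 / (q : QBar) with hu_def
  rcases lt_trichotomy a c with h1 | h1 | h1
  · exfalso
    obtain ⟨d, rfl⟩ := Nat.exists_eq_add_of_lt h1
    apply key ((d + 1) * N) (Nat.mul_pos (Nat.succ_pos _) hN)
    have h2 : u ^ a * u⁻¹ ^ (a + d + 1) = (u ^ (d + 1))⁻¹ := by
      rw [inv_pow, show a + d + 1 = a + (d + 1) by ring, pow_add]
      field_simp
    rw [h2, inv_pow, ← pow_mul, inv_eq_one] at h
    exact h
  · exact h1
  · exfalso
    obtain ⟨d, rfl⟩ := Nat.exists_eq_add_of_lt h1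
    apply key ((d + 1) * N) (Nat.mul_pos (Nat.succ_pos _) hN)
    have h2 : u ^ (c + d + 1) * u⁻¹ ^ c = u ^ (d + 1) := by
      rw [inv_pow, show c + d + 1 = c + (d + 1) by ring, pow_add]
      field_simp
    rw [h2, ← pow_mul] at h
    exact h

end FIN_

open FIN_ Classical in
theorem p_FIN : T_FIN := by
  intro r g q hq b hirr hflip hrou
  refine ⟨hirr, ?_⟩
  intro n i Δ hΔ
  obtain ⟨hcard, N, hN, hR⟩ := hΔ
  have hq0 : (q : QBar) ≠ 0 := by exact_mod_cast hq.ne'
  haveI : ∀ j, Finite (Root q (b j)) := fun j => finite_root (hirr j).ne_zero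
  letI : ∀ j, Fintype (Root q (b j)) := fun j => Fintype.ofFinite _
  let c : ∀ j, Root q (b j) → Root q (b j) := fun j α => ⟨(q : QBar) / α.1, root_conj hq α.2⟩
  have hcc : ∀ j y, c j (c j y) = y := by
    intro j y
    apply Subtype.ext
    show (q : QBar) / (q / y.1) = y.1
    have := root_ne_zero hq y.2
    field_simp
  have hcne : ∀ j y, c j y ≠ y := by
    intro j y h
    have h1 : (q : QBar) / y.1 = y.1 := congrArg Subtype.val h
    have h2 := (hflip j _ (root_poly hq y.2)).2.1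
    exact ne_conj (root_ne_zero hq y.2) h2 h1.symm
  have hmult : ∀ j y, {s : Fin (n j) | (⟨j, y, s⟩ : Σ j, Root q (b j) × Fin (n j)) ∈ Δ}.ncard =
      {s : Fin (n j) | (⟨j, c j y, s⟩ : Σ j, Root q (b j) × Fin (n j)) ∈ Δ}.ncard := by
    intro j α₀
    have hα₀ := root_ne_zero hq α₀.2
    obtain ⟨hf1, hf2, τ, hτ1, hτ2⟩ := hflip j _ (root_poly hq α₀.2)
    have e0 : τ α₀.1 = q / α₀.1 := by
      rw [hτ1 _ (quad hα₀)]
      ring
    have e1 : τ (q / α₀.1) = α₀.1 := by
      rw [hτ1 _ (quad_conj hα₀)]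
      ring
    have hne := ne_conj hα₀ hf2
    have hF : ∀ x ∈ Δ, x.2.1.1 / τ x.2.1.1 =
        (if x.1 = j ∧ x.2.1.1 = α₀.1 then α₀.1 ^ 2 / (q : QBar) else 1) *
        (if x.1 = j ∧ x.2.1.1 = (c j α₀).1 then (α₀.1 ^ 2 / (q : QBar))⁻¹ else 1) := by
      intro x _
      have hcx : (c j α₀).1 = (q : QBar) / α₀.1 := rfl
      rw [hcx]
      by_cases h1 : x.1 = j ∧ x.2.1.1 = α₀.1
      · have h2 : ¬ (x.1 = j ∧ x.2.1.1 = (q : QBar) / α₀.1) := by
          rintro ⟨_, h3⟩
          exact hne (h1.2.symm.trans h3)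
        rw [if_pos h1, if_neg h2, h1.2, e0, mul_one]
        field_simp
      · rw [if_neg h1, one_mul]
        by_cases h2 : x.1 = j ∧ x.2.1.1 = (q : QBar) / α₀.1
        · rw [if_pos h2, h2.2, e1]
          field_simp
        · rw [if_neg h2]
          have hx0 := root_ne_zero hq x.2.1.2
          have h3 : τ x.2.1.1 = x.2.1.1 := by
            refine hτ2 x.1 (x.2.1.1 + q / x.2.1.1) (root_poly hq x.2.1.2) ?_ _ (quad hx0)
            by_contra h4
            push Not at h4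
            obtain ⟨h5, h6⟩ := h4
            have h7 := quad (q := q) hx0
            rw [h6] at h7
            rcases quad_roots hα₀ h7 with h8 | h8
            · exact h1 ⟨h5, h8⟩
            · exact h2 ⟨h5, h8⟩
          rw [h3, div_self hx0]
    have h1 : (∏ x ∈ Δ, (x.2.1.1 / τ x.2.1.1)) ^ N = 1 := by
      rw [Finset.prod_div_distrib, ← map_prod, div_pow, ← map_pow, hR]
      have : τ ((q : QBar) ^ (i * N)) = (q : QBar) ^ (i * N) := by
        rw [map_pow, map_natCast]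
      rw [this]
      exact div_self (pow_ne_zero _ hq0)
    rw [Finset.prod_congr rfl hF, Finset.prod_mul_distrib, ← Finset.prod_filter,
      ← Finset.prod_filter, Finset.prod_const, Finset.prod_const,
      mult_eq Δ j α₀, mult_eq Δ j (c j α₀)] at h1
    exact expo hq hα₀ N hN (hrou j α₀.1 α₀.2) _ _ h1
  obtain ⟨D, h1, h2, h3⟩ := Pool.Agent.FFT.p_MATCH (Fin r) (fun j => Root q (b j)) n c hcc hcne
    Δ hmult
  refine ⟨D, h1, h2, ?_⟩
  intro B hB
  obtain ⟨j, y, s, t, hB'⟩ := h3 B hB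
  have hpe : B = {(⟨j, y, s⟩ : Idx q b n), ⟨j, c j y, t⟩} := by
    ext x
    rw [hB', Finset.mem_insert, Finset.mem_singleton]
  have hpn : (⟨j, y, s⟩ : Idx q b n) ≠ ⟨j, c j y, t⟩ := by
    intro h
    rw [Sigma.mk.injEq] at h
    have h4 := eq_of_heq h.2
    exact hcne j y (congrArg Prod.fst h4).symm
  refine ⟨?_, 1, one_pos, ?_⟩
  · rw [hpe, Finset.card_pair hpn]
  · rw [hpe, Finset.prod_pair hpn]
    simp only [pow_one, mul_one]
    show y.1 * ((q : QBar) / y.1) = q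
    have := root_ne_zero hq y.2
    field_simp

end Pool.Agent.AWP
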