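import Pool.Agent.AWP.Targets
import Pool.Agent.CMTP.Field

set_option autoImplicit false

/-!
# FROB: the Frobenius automorphism of a prime with the pattern is a single flip
-/

namespace Pool.Agent.AWP

open Polynomial Finset
open Pool.Agent.CMT (QBar)
open scoped BigOperators

namespace FROB_

section

open NumberField

theorem frob (L : Type) [Field L] [NumberField L] [IsGalois ℚ L] (l : ℕ) (hl : l.Prime) :
    ∃ (Q : Ideal (𝓞 L)) (_ : Q.IsPrime) (σ : L ≃+* L), (l : 𝓞 L) ∈ Q ∧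
      ∀ x : 𝓞 L, ∃ x' : 𝓞 L, (x' : L) = σ x ∧ x' - x ^ l ∈ Q := by
  have hl0 : (l : ℤ) ≠ 0 := by exact_mod_cast hl.ne_zero
  have hP : (Ideal.span {(l : ℤ)}).IsPrime :=
    (Ideal.span_singleton_prime hl0).2 (Nat.prime_iff_prime_int.1 hl)
  have hPm : (Ideal.span {(l : ℤ)}).IsMaximal := hP.isMaximal (by
    rw [Ne, Ideal.span_singleton_eq_bot]; exact hl0)
  obtain ⟨Q, hQm, hQ⟩ := Ideal.exists_maximal_ideal_liesOver_of_isIntegral
    (Ideal.span {(l : ℤ)}) (S := 𝓞 L)
  have hlQ : (l : 𝓞 L) ∈ Q := by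
    have h1 : (l : ℤ) ∈ Q.under ℤ := by
      rw [← hQ.over]
      exact Ideal.mem_span_singleton_self _
    rw [Ideal.under_def, Ideal.mem_comap] at h1
    simpa using h1
  have : Finite (𝓞 L ⧸ Q) := Q.finiteQuotientOfFreeOfNeBot fun h => by
    rw [h, Ideal.mem_bot] at hlQ
    exact hl.ne_zero (by exact_mod_cast hlQ)
  have hcard : Nat.card (ℤ ⧸ Q.under ℤ) = l := by
    rw [← hQ.over, Nat.card_congr (Int.quotientSpanNatEquivZMod l).toEquiv, Nat.card_zmod]
  have : Algebra.IsInvariant ℤ (𝓞 L) (𝓞 L ≃ₐ[ℤ] 𝓞 L) :=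
    Algebra.isInvariant_of_isGalois' ℤ ℚ L (𝓞 L)
  have : Finite (𝓞 L ≃ₐ[ℤ] 𝓞 L) :=
    Finite.of_equiv _ (galRestrict ℤ ℚ L (𝓞 L)).toEquiv
  obtain ⟨σ, hσ⟩ := IsArithFrobAt.exists_of_isInvariant ℤ (𝓞 L ≃ₐ[ℤ] 𝓞 L) Q
  refine ⟨Q, inferInstance, ((galRestrict ℤ ℚ L (𝓞 L)).symm σ).toRingEquiv, hlQ, fun x => ⟨σ x, ?_, ?_⟩⟩
  · exact (galRestrict_symm_algebraMap_apply ℤ ℚ σ x).symm
  · have h1 := hσ x
    rw [hcard] at h1
    exact h1

theorem frob' (L : Type) [Field L] [CharZero L] [A : Algebra ℚ L] [h1 : FiniteDimensional ℚ L]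
    [h2 : IsGalois ℚ L] (l : ℕ) (hl : l.Prime) :
    ∃ (B k : Type) (_ : CommRing B) (_ : CommRing k) (_ : IsDomain k) (i : B →+* L) (r : B →+* k)
      (σ : L ≃+* L), Function.Injective i ∧ (l : k) = 0 ∧
      (∀ s : L, IsIntegral ℤ s → ∃ x, i x = s) ∧
      ∀ x : B, ∃ x' : B, i x' = σ (i x) ∧ r x' = r x ^ l := by
  have e : A = DivisionRing.toRatAlgebra := Subsingleton.elim _ _
  subst e
  have : NumberField L := { to_charZero := inferInstance, to_finiteDimensional := h1 }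
  obtain ⟨Q, hQ, σ, h3, h4⟩ := frob L l hl
  refine ⟨𝓞 L, 𝓞 L ⧸ Q, inferInstance, inferInstance, inferInstance, algebraMap (𝓞 L) L,
    Ideal.Quotient.mk Q, σ, RingOfIntegers.coe_injective, ?_, ?_, ?_⟩
  · rw [← map_natCast (Ideal.Quotient.mk Q)]
    exact Ideal.Quotient.eq_zero_iff_mem.2 h3
  · intro s hs
    exact ⟨⟨s, hs⟩, rfl⟩
  · intro x
    obtain ⟨x', h5, h6⟩ := h4 x
    refine ⟨x', h5, ?_⟩
    rw [← map_pow]
    exact Ideal.Quotient.eq.2 h6

theorem frobO {Ω : Type} [Field Ω] [CharZero Ω] [IsAlgClosed Ω] [Algebra.IsAlgebraic ℚ Ω]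
    (S : Set Ω) (hS : S.Finite) (hSi : ∀ s ∈ S, IsIntegral ℤ s) (l : ℕ) (hl : l.Prime) :
    ∃ (B k : Type) (_ : CommRing B) (_ : CommRing k) (_ : IsDomain k) (j : B →+* Ω) (r : B →+* k)
      (τ : Ω ≃+* Ω), Function.Injective j ∧ (l : k) = 0 ∧ (∀ s ∈ S, ∃ x, j x = s) ∧
      ∀ x : B, ∃ x' : B, j x' = τ (j x) ∧ r x' = r x ^ l := by
  have : Normal ℚ Ω := normal_iff.2 fun x =>
    ⟨(Algebra.IsAlgebraic.isAlgebraic x).isIntegral, IsAlgClosed.splits _⟩
  have : Finite S := hS
  let K₀ := IntermediateField.adjoin ℚ S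
  have hK₀ : FiniteDimensional ℚ K₀ :=
    IntermediateField.finiteDimensional_adjoin fun x _ =>
      (Algebra.IsAlgebraic.isAlgebraic x).isIntegral
  let L := IntermediateField.normalClosure ℚ K₀ Ω
  have hfd : FiniteDimensional ℚ L := inferInstance
  have hn : Normal ℚ L := normalClosure.normal ℚ K₀ Ω
  have hg : IsGalois ℚ L := { }
  obtain ⟨B, k, i1, i2, i3, i, r, σ, hi, hlk, hs, hf⟩ := frob' L l hl
  have hL : Algebra.IsAlgebraic L Ω := inferInstance
  have : IsAlgClosure L Ω := ⟨inferInstance, inferInstance⟩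
  let τ : Ω ≃+* Ω := IsAlgClosure.equivOfEquiv Ω Ω σ
  have hτ : ∀ x : L, τ (algebraMap L Ω x) = algebraMap L Ω (σ x) :=
    fun x => IsAlgClosure.equivOfEquiv_algebraMap Ω Ω σ x
  refine ⟨B, k, i1, i2, i3, (algebraMap L Ω).comp i, r, τ, ?_, hlk, ?_, ?_⟩
  · exact (algebraMap L Ω).injective.comp hi
  · intro s hsS
    have h1 : s ∈ L := by
      apply IntermediateField.le_normalClosure K₀
      exact IntermediateField.subset_adjoin ℚ S hsS
    obtain ⟨x, hx⟩ := hs ⟨s, h1⟩ (by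
      have h2 := hSi s hsS
      exact (isIntegral_algHom_iff (IsScalarTower.toAlgHom ℤ L Ω) (algebraMap L Ω).injective).1 h2)
    refine ⟨x, ?_⟩
    rw [RingHom.comp_apply, hx]
    rfl
  · intro x
    obtain ⟨x', h1, h2⟩ := hf x
    refine ⟨x', ?_, h2⟩
    rw [RingHom.comp_apply, RingHom.comp_apply, h1, hτ]

end


theorem poly_map {R S : Type} [CommRing R] [CommRing S] (f : R →+* S) {g : ℕ} (b : Fin g → R) :
    (poly b).map f = poly (fun i => f (b i)) := by
  unfold poly
  simp only [Polynomial.map_add, Polynomial.map_pow, map_X, Polynomial.map_sum,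
    Polynomial.map_mul, map_C]

theorem poly_monic {R : Type} [CommRing R] {g : ℕ} (b : Fin g → R) : (poly b).Monic := by
  nontriviality R
  unfold poly
  rcases Nat.eq_zero_or_pos g with h | h
  · subst h
    simp
  apply monic_X_pow_add
  refine mem_degreeLT.1 (Submodule.sum_mem _ fun i _ => mem_degreeLT.2 ?_)
  refine lt_of_le_of_lt (degree_C_mul_X_pow_le _ _) ?_
  have : g - 1 - i.val < g := by omega
  exact_mod_cast this

theorem mem_Fl {l : ℕ} [Fact l.Prime] {k : Type} [CommRing k] [IsDomain k] (ι : ZMod l →+* k)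
    (a : k) (ha : a ^ l = a) : ∃ w, a = ι w := by
  have h1 : (X ^ l - X : (ZMod l)[X]) = ∏ w : ZMod l, (X - C w) := by
    have h2 := FiniteField.roots_X_pow_card_sub_X (ZMod l)
    rw [ZMod.card l] at h2
    have hd : (X ^ l - X : (ZMod l)[X]).natDegree = l :=
      FiniteField.X_pow_card_sub_X_natDegree_eq (ZMod l) (Fact.out : l.Prime).one_lt
    have hm : (X ^ l - X : (ZMod l)[X]).Monic := by
      apply monic_X_pow_sub
      rw [degree_X]
      have := (Fact.out : l.Prime).one_lt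
      exact_mod_cast this
    have hs : (X ^ l - X : (ZMod l)[X]).roots.card = (X ^ l - X : (ZMod l)[X]).natDegree := by
      rw [h2, hd]
      simp [ZMod.card l]
    have h3 := prod_multiset_X_sub_C_of_monic_of_roots_card_eq hm hs
    rw [h2] at h3
    exact h3.symm
  have h4 := congrArg (fun p => eval₂ ι a p) h1
  simp only [eval₂_sub, eval₂_pow, eval₂_X, eval₂_finsetProd, eval₂_C] at h4
  rw [ha, sub_self] at h4
  obtain ⟨w, -, hw⟩ := Finset.prod_eq_zero_iff.1 h4.symm
  exact ⟨w, sub_eq_zero.1 hw⟩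

theorem roots_res {Ω B k : Type} [Field Ω] [CharZero Ω] [IsAlgClosed Ω] [CommRing B] [CommRing k]
    [IsDomain k] (j : B →+* Ω) (hj : Function.Injective j) (r : B →+* k) {l : ℕ}
    [Fact l.Prime] (ι : ZMod l →+* k) {g : ℕ} (b : Fin g → ℤ) (y : Fin g → ZMod l)
    (hy : Function.Injective y) (hp : poly (fun i => (b i : ZMod l)) = ∏ k, (X - C (y k)))
    (hlift : ∀ s : Ω, aeval s (poly b) = 0 → ∃ x, j x = s) :
    (∀ Y : B, aeval (j Y) (poly b) = 0 → ∃ k, r Y = ι (y k)) ∧
    (∀ k, ∃ Y : B, aeval (j Y) (poly b) = 0 ∧ r Y = ι (y k)) ∧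
    (∀ Y Y' : B, aeval (j Y) (poly b) = 0 → aeval (j Y') (poly b) = 0 → r Y = r Y' → Y = Y') := by
  have hne : (poly b).map (Int.castRingHom Ω) ≠ 0 := ((poly_monic b).map _).ne_zero
  have hroot : ∀ s : Ω, s ∈ ((poly b).map (Int.castRingHom Ω)).roots ↔ aeval s (poly b) = 0 := by
    intro s
    rw [mem_roots hne, IsRoot.def, eval_map]
    rfl
  obtain ⟨m, hm⟩ : ∃ m : Multiset B, m.map j = ((poly b).map (Int.castRingHom Ω)).roots := by
    have : CanLift Ω B j (fun s => ∃ x, j x = s) := ⟨fun s h => h⟩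
    obtain ⟨m, hm⟩ := (Multiset.canLift (j : B → Ω) (fun s => ∃ x, j x = s)).prf
      ((poly b).map (Int.castRingHom Ω)).roots (fun s hs => hlift s ((hroot s).1 hs))
    exact ⟨m, hm⟩
  have hmem : ∀ Y : B, aeval (j Y) (poly b) = 0 → Y ∈ m := by
    intro Y hY
    rw [← hroot, ← hm, Multiset.mem_map] at hY
    obtain ⟨Y', h1, h2⟩ := hY
    rw [← hj h2]
    exact h1
  have hmem' : ∀ Y ∈ m, aeval (j Y) (poly b) = 0 := by
    intro Y hY
    rw [← hroot, ← hm]
    exact Multiset.mem_map_of_mem _ hY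
  have hprod : (poly b).map (Int.castRingHom B) = (m.map (fun a => X - C a)).prod := by
    apply Polynomial.map_injective j hj
    rw [Polynomial.map_map, RingHom.ext_int (j.comp (Int.castRingHom B)) (Int.castRingHom Ω)]
    have h1 := (IsAlgClosed.splits ((poly b).map (Int.castRingHom Ω))).eq_prod_roots_of_monic
      ((poly_monic b).map _)
    rw [← hm] at h1
    refine h1.trans ?_
    rw [Polynomial.map_multiset_prod, Multiset.map_map, Multiset.map_map]
    congr 1
    refine Multiset.map_congr rfl fun a _ => ?_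
    simp
  have hprod2 : ((m.map r).map (fun a => X - C a)).prod =
      (((univ : Finset (Fin g)).val.map (fun i => ι (y i))).map (fun a => X - C a)).prod := by
    have h1 := congrArg (Polynomial.map r) hprod
    rw [Polynomial.map_map, Polynomial.map_multiset_prod, Multiset.map_map] at h1
    have h2 : (poly b).map (r.comp (Int.castRingHom B)) =
        ((poly b).map (Int.castRingHom (ZMod l))).map ι := by
      rw [Polynomial.map_map]
      congr 1
      exact RingHom.ext_int _ _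
    rw [h2, poly_map] at h1
    have h3 : poly (fun i => (Int.castRingHom (ZMod l)) (b i)) = ∏ k, (X - C (y k)) := hp
    rw [h3, Polynomial.map_prod] at h1
    have h4 : (m.map (Polynomial.map r ∘ fun a => X - C a)).prod =
        ((m.map r).map (fun a => X - C a)).prod := by
      rw [Multiset.map_map]
      congr 1
      refine Multiset.map_congr rfl fun a _ => ?_
      simp
    rw [← h4, ← h1, Multiset.map_map]
    simp only [Polynomial.map_sub, map_X, map_C]
    rfl
  have hms : m.map r = (univ : Finset (Fin g)).val.map (fun i => ι (y i)) := by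
    have h1 := congrArg Polynomial.roots hprod2
    rwa [roots_multiset_prod_X_sub_C, roots_multiset_prod_X_sub_C] at h1
  have hnod : (m.map r).Nodup := by
    rw [hms]
    exact Multiset.Nodup.map (ι.injective.comp hy) univ.nodup
  refine ⟨?_, ?_, ?_⟩
  · intro Y hY
    have h1 : r Y ∈ m.map r := Multiset.mem_map_of_mem _ (hmem Y hY)
    rw [hms, Multiset.mem_map] at h1
    obtain ⟨i, -, hi⟩ := h1
    exact ⟨i, hi.symm⟩
  · intro i
    have h1 : ι (y i) ∈ m.map r := by
      rw [hms]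
      exact Multiset.mem_map_of_mem (fun i => ι (y i)) (mem_univ_val i)
    obtain ⟨Y, h2, h3⟩ := Multiset.mem_map.1 h1
    exact ⟨Y, hmem' Y h2, h3⟩
  · intro Y Y' h1 h2 h3
    exact Multiset.inj_on_of_nodup_map hnod Y (hmem Y h1) Y' (hmem Y' h2) h3

/-- the quadratic equation, square discriminant -/
theorem quad_sq {Ω B k : Type} [Field Ω] [CommRing B] [CommRing k]
    [IsDomain k] (j : B →+* Ω) (hj : Function.Injective j) (r : B →+* k) {l : ℕ}
    [Fact l.Prime] (hl : 3 ≤ l) (ι : ZMod l →+* k) (τ : Ω ≃+* Ω)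
    (hf : ∀ x : B, ∃ x' : B, j x' = τ (j x) ∧ r x' = r x ^ l) (q : ℕ) (Y A : B) (c : ZMod l)
    (hY : r Y = ι c) (hτ : τ (j Y) = j Y) (hA : j A ^ 2 - j Y * j A + q = 0)
    (hs : IsSquare (c ^ 2 - 4 * (q : ZMod l))) (h0 : c ^ 2 - 4 * (q : ZMod l) ≠ 0) :
    τ (j A) = j A := by
  have h2 : (2 : ZMod l) ≠ 0 := by
    intro h
    have h3 : ((2 : ℕ) : ZMod l) = 0 := by exact_mod_cast h
    rw [ZMod.natCast_eq_zero_iff] at h3
    exact absurd (Nat.le_of_dvd (by norm_num) h3) (by omega)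
  have hAB : A ^ 2 - Y * A + q = 0 := by
    apply hj
    rw [map_add, map_sub, map_pow, map_mul, map_natCast, map_zero]
    exact hA
  have ha : (r A) ^ 2 - ι c * r A + q = 0 := by
    have := congrArg r hAB
    rwa [map_add, map_sub, map_pow, map_mul, map_natCast, map_zero, hY] at this
  have hroot : (τ (j A) - j A) * (τ (j A) - (j Y - j A)) = 0 := by
    have h3 := congrArg τ hA
    rw [map_add, map_sub, map_pow, map_mul, map_natCast, map_zero, hτ] at h3
    linear_combination h3 - hA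
  rcases mul_eq_zero.1 hroot with h | h
  · exact sub_eq_zero.1 h
  exfalso
  obtain ⟨z, hz⟩ := hs
  have h4 : (2 * r A - ι c - ι z) * (2 * r A - ι c + ι z) = 0 := by
    have h5 : ι c ^ 2 - 4 * (q : k) = ι z * ι z := by
      rw [← map_mul, ← hz, map_sub, map_pow, map_mul, map_natCast, map_ofNat]
    linear_combination 4 * ha + h5
  obtain ⟨w, hw⟩ : ∃ w : ZMod l, r A = ι w := by
    have h6 : ∀ u : ZMod l, 2 * r A = ι u → ∃ w : ZMod l, r A = ι w := by
      intro u hu
      refine ⟨u / 2, ?_⟩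
      have h7 : ι 2 * r A = ι 2 * ι (u / 2) := by
        rw [← map_mul, mul_div_cancel₀ _ h2, ← hu, map_ofNat]
      exact mul_left_cancel₀ (by rw [Ne, map_eq_zero_iff ι ι.injective]; exact h2) h7
    rcases mul_eq_zero.1 h4 with h5 | h5
    · exact h6 (c + z) (by rw [map_add]; linear_combination h5)
    · exact h6 (c - z) (by rw [map_sub]; linear_combination h5)
  obtain ⟨x', h5, h6⟩ := hf A
  have h7 : x' = Y - A := by
    apply hj
    rw [h5, map_sub]
    exact sub_eq_zero.1 h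
  rw [h7, map_sub, hw, hY, ← map_pow, ZMod.pow_card] at h6
  have h8 : c = 2 * w := by
    apply ι.injective
    rw [map_mul]
    rw [map_ofNat]
    linear_combination h6
  apply h0
  have h9 : w ^ 2 - c * w + (q : ZMod l) = 0 := by
    apply ι.injective
    rw [map_add, map_sub, map_pow, map_mul, map_natCast, map_zero, ← hw]
    exact ha
  rw [h8] at h9 ⊢
  linear_combination (-4) * h9

/-- the quadratic equation, non-square discriminant -/
theorem quad_nsq {Ω B k : Type} [Field Ω] [CommRing B] [CommRing k]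
    [IsDomain k] (j : B →+* Ω) (hj : Function.Injective j) (r : B →+* k) {l : ℕ}
    [Fact l.Prime] (ι : ZMod l →+* k) (τ : Ω ≃+* Ω)
    (hf : ∀ x : B, ∃ x' : B, j x' = τ (j x) ∧ r x' = r x ^ l) (q : ℕ) (Y A : B) (c : ZMod l)
    (hY : r Y = ι c) (hτ : τ (j Y) = j Y) (hA : j A ^ 2 - j Y * j A + q = 0)
    (hs : ¬ IsSquare (c ^ 2 - 4 * (q : ZMod l))) :
    τ (j A) = j Y - j A := by
  have hAB : A ^ 2 - Y * A + q = 0 := by
    apply hj
    rw [map_add, map_sub, map_pow, map_mul, map_natCast, map_zero]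
    exact hA
  have ha : (r A) ^ 2 - ι c * r A + q = 0 := by
    have := congrArg r hAB
    rwa [map_add, map_sub, map_pow, map_mul, map_natCast, map_zero, hY] at this
  have hroot : (τ (j A) - j A) * (τ (j A) - (j Y - j A)) = 0 := by
    have h3 := congrArg τ hA
    rw [map_add, map_sub, map_pow, map_mul, map_natCast, map_zero, hτ] at h3
    linear_combination h3 - hA
  rcases mul_eq_zero.1 hroot with h | h
  swap
  · exact sub_eq_zero.1 h
  exfalso
  obtain ⟨x', h5, h6⟩ := hf A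
  have h7 : x' = A := by
    apply hj
    rw [h5]
    exact sub_eq_zero.1 h
  rw [h7] at h6
  obtain ⟨w, hw⟩ := mem_Fl ι (r A) h6.symm
  apply hs
  refine ⟨2 * w - c, ?_⟩
  have h9 : w ^ 2 - c * w + (q : ZMod l) = 0 := by
    apply ι.injective
    rw [map_add, map_sub, map_pow, map_mul, map_natCast, map_zero, ← hw]
    exact ha
  linear_combination (-4) * h9

theorem finite_quad {Ω : Type} [Field Ω] (y q : Ω) :
    {α : Ω | α ^ 2 - y * α + q = 0}.Finite := by
  rcases Set.eq_empty_or_nonempty {α : Ω | α ^ 2 - y * α + q = 0} with h | ⟨α₀, h⟩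
  · rw [h]
    exact Set.finite_empty
  · refine Set.Finite.subset (Set.toFinite {α₀, y - α₀}) ?_
    intro α hα
    have h1 : α₀ ^ 2 - y * α₀ + q = 0 := h
    have h2 : α ^ 2 - y * α + q = 0 := hα
    have h3 : (α - α₀) * (α - (y - α₀)) = 0 := by linear_combination h2 - h1
    rcases mul_eq_zero.1 h3 with h4 | h4
    · exact Or.inl (sub_eq_zero.1 h4)
    · exact Or.inr (sub_eq_zero.1 h4)

theorem integral_quad {Ω : Type} [Field Ω] (y α : Ω) (q : ℕ) (hy : IsIntegral ℤ y)
    (h : α ^ 2 - y * α + q = 0) : IsIntegral ℤ α := by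
  let A := integralClosure ℤ Ω
  let y' : A := ⟨y, hy⟩
  have h1 : IsIntegral A α := by
    refine ⟨X ^ 2 - (C y' * X - C (q : A)), ?_, ?_⟩
    · apply monic_X_pow_sub
      refine lt_of_le_of_lt (degree_sub_le _ _) ?_
      rw [max_lt_iff]
      constructor
      · exact lt_of_le_of_lt (degree_C_mul_X_le _) (by norm_num)
      · exact lt_of_le_of_lt degree_C_le (by norm_num)
    · rw [eval₂_sub, eval₂_pow, eval₂_X, eval₂_sub, eval₂_mul, eval₂_C, eval₂_X, eval₂_C,
        map_natCast]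
      have : algebraMap A Ω y' = y := rfl
      rw [this]
      linear_combination h
  exact isIntegral_trans α h1

theorem charP_of {k : Type} [CommRing k] [IsDomain k] {l : ℕ} (hl : l.Prime) (h : (l : k) = 0) :
    CharP k l := by
  obtain ⟨p, hp⟩ := CharP.exists k
  have h1 : p ∣ l := (CharP.cast_eq_zero_iff k p l).1 h
  rcases (Nat.dvd_prime hl).1 h1 with h2 | h2
  · exact absurd h2 (CharP.char_ne_one k p)
  · rw [← h2]
    exact hp

theorem aeval_map_root {Ω : Type} [Field Ω] (τ : Ω ≃+* Ω) (p : ℤ[X]) (s : Ω)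
    (h : aeval s p = 0) : aeval (τ s) p = 0 := by
  rw [aeval_def] at h ⊢
  have h1 := congrArg (τ : Ω →+* Ω) h
  rw [hom_eval₂, map_zero, RingHom.ext_int ((τ : Ω →+* Ω).comp (algebraMap ℤ Ω))
    (algebraMap ℤ Ω)] at h1
  exact h1

end FROB_

open FROB_ in
/-- FROB -/
theorem p_FROB : T_FROB := by
  classical
  intro r g q b j l hl hl3 hlq hP
  obtain ⟨y, hy, hp, k₀, hns, hsq⟩ := hP
  have hfact : Fact l.Prime := ⟨hl⟩
  have halg : Algebra.IsAlgebraic ℚ QBar := Pool.Agent.CMTP.isAlgebraic_QBar ℚ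
  set R : Set QBar := {s | ∃ i, aeval s (poly (b i)) = 0} with hR
  have hRfin : R.Finite := by
    have h1 : R = ⋃ i, {s : QBar | aeval s (poly (b i)) = 0} := by
      ext s
      simp [hR]
    rw [h1]
    refine Set.finite_iUnion fun i => ?_
    refine Set.Finite.subset ((poly (b i)).rootSet_finite QBar) fun s hs => ?_
    exact (mem_rootSet_of_ne (poly_monic (b i)).ne_zero).2 hs
  have hRint : ∀ s ∈ R, IsIntegral ℤ s := by
    rintro s ⟨i, hi⟩
    exact ⟨poly (b i), poly_monic _, hi⟩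
  set S : Set QBar := R ∪ ⋃ y ∈ R, {α : QBar | α ^ 2 - y * α + (q : QBar) = 0} with hS
  have hSfin : S.Finite := hRfin.union (hRfin.biUnion fun y _ => finite_quad y (q : QBar))
  have hSint : ∀ s ∈ S, IsIntegral ℤ s := by
    rintro s (hs | hs)
    · exact hRint s hs
    · rw [Set.mem_iUnion₂] at hs
      obtain ⟨y, hy, h⟩ := hs
      exact integral_quad y s q (hRint y hy) h
  obtain ⟨B, k, i1, i2, i3, jj, rr, τ, hj, hlk, hlift, hf⟩ := frobO S hSfin hSint l hl
  have hchar : CharP k l := charP_of hl hlk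
  let ι : ZMod l →+* k := ZMod.castHom (dvd_refl l) k
  have hres := fun i => roots_res jj hj rr ι (b i) (y i) (hy i) (hp i)
    (fun s hs => hlift s (Or.inl ⟨i, hs⟩))
  have hfix : ∀ (i : Fin r) (Y : B), aeval (jj Y) (poly (b i)) = 0 → τ (jj Y) = jj Y := by
    intro i Y hY
    obtain ⟨x', h1, h2⟩ := hf Y
    have h3 : aeval (jj x') (poly (b i)) = 0 := by
      rw [h1]
      exact aeval_map_root τ _ _ hY
    obtain ⟨c, hc⟩ := (hres i).1 Y hY
    have h4 : rr x' = rr Y := by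
      rw [h2, hc, ← map_pow, ZMod.pow_card]
    rw [← h1, (hres i).2.2 x' Y h3 hY h4]
  have hquad : ∀ (Y : B) (i : Fin r) (α : QBar), aeval (jj Y) (poly (b i)) = 0 →
      α ^ 2 - jj Y * α + q = 0 → ∃ A, jj A = α := by
    intro Y i α hY hα
    refine hlift α (Or.inr ?_)
    rw [Set.mem_iUnion₂]
    exact ⟨jj Y, ⟨i, hY⟩, hα⟩
  obtain ⟨Y₀, hY₀, hc₀⟩ := (hres j).2.1 k₀
  refine ⟨jj Y₀, hY₀, ?_, τ, ?_, ?_⟩
  · intro h
    have h1 : Y₀ ^ 2 = 4 * q := by
      apply hj
      rw [map_pow, map_mul, map_natCast, map_ofNat]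
      exact h
    have h2 : y j k₀ ^ 2 = 4 * (q : ZMod l) := by
      apply ι.injective
      have := congrArg rr h1
      rw [map_pow, map_mul, map_natCast, map_ofNat, hc₀] at this
      rw [map_pow, map_mul, map_natCast, map_ofNat]
      exact this
    apply hns
    rw [h2, sub_self]
    exact ⟨0, by rw [mul_zero]⟩
  · intro α hα
    obtain ⟨A, rfl⟩ := hquad Y₀ j α hY₀ hα
    exact quad_nsq jj hj rr ι τ hf q Y₀ A (y j k₀) hc₀ (hfix j Y₀ hY₀) hα hns
  · intro i s hs hne α hα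
    obtain ⟨Y, rfl⟩ := hlift s (Or.inl ⟨i, hs⟩)
    obtain ⟨A, rfl⟩ := hquad Y i α hs hα
    obtain ⟨c, hc⟩ := (hres i).1 Y hs
    have hne' : (⟨i, c⟩ : Σ i, Fin (g i)) ≠ ⟨j, k₀⟩ := by
      intro h
      obtain ⟨h1, h2⟩ := Sigma.mk.inj_iff.1 h
      subst h1
      rw [heq_eq_eq] at h2
      subst h2
      rcases hne with h3 | h3
      · exact h3 rfl
      · exact h3 (congrArg jj ((hres i).2.2 Y Y₀ hs hY₀ (by rw [hc, hc₀])))
    obtain ⟨h1, h2⟩ := hsq i c hne'
    exact quad_sq jj hj rr hl3 ι τ hf q Y A (y i c) hc (hfix i Y hs) hα h1 h2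

end Pool.Agent.AWP
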