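import Pool.Agent.AWP.Targets

set_option autoImplicit false

/-!
# AWP: a positive proportion of the monic polynomials modulo `l` is irreducible
-/

namespace Pool.Agent.AWP.IRRD_

open Polynomial Finset Pool.Agent.AWP
open scoped BigOperators

/-- A monic polynomial is recovered from its coefficients. -/
lemma poly_coeff {R : Type} [CommRing R] {g : ℕ} (p : R[X]) (hp : p.Monic)
    (hg : p.natDegree = g) : poly (fun i : Fin g => p.coeff (g - 1 - i.val)) = p := by
  unfold poly
  conv_rhs => rw [hp.as_sum, hg]
  congr 1
  rw [← Finset.sum_range_reflect, Finset.sum_range]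

lemma finrank_gf (l g : ℕ) [Fact l.Prime] (hg : g ≠ 0) :
    Module.finrank (ZMod l) (GaloisField l g) = g := GaloisField.finrank l hg

lemma pow_deg (l g : ℕ) [Fact l.Prime] (a : GaloisField l g) :
    a ^ (l ^ (minpoly (ZMod l) a).natDegree) = a := by
  have hint : IsIntegral (ZMod l) a := Algebra.IsIntegral.isIntegral a
  let K := IntermediateField.adjoin (ZMod l) ({a} : Set (GaloisField l g))
  have hfin : Module.finrank (ZMod l) K = (minpoly (ZMod l) a).natDegree :=
    IntermediateField.adjoin.finrank hint
  have : Finite K := inferInstance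
  have : Fintype K := Fintype.ofFinite K
  have hcard : Fintype.card K = l ^ (minpoly (ZMod l) a).natDegree := by
    rw [← hfin, Module.card_eq_pow_finrank (K := ZMod l) (V := K), ZMod.card]
  let b : K := ⟨a, IntermediateField.mem_adjoin_simple_self (ZMod l) a⟩
  have hb : b ^ Fintype.card K = b := FiniteField.pow_card b
  rw [hcard] at hb
  have := congrArg (fun x : K => (x : GaloisField l g)) hb
  simpa [b] using this

lemma card_fix (l g k : ℕ) [Fact l.Prime] (hk : k ≠ 0) [Fintype (GaloisField l g)]
    [DecidableEq (GaloisField l g)] :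
    (Finset.univ.filter fun a : GaloisField l g => a ^ (l ^ k) = a).card ≤ l ^ k := by
  have hl : 1 < l := (Fact.out : l.Prime).one_lt
  have hne : (X ^ (l ^ k) - X : (GaloisField l g)[X]) ≠ 0 :=
    FiniteField.X_pow_card_pow_sub_X_ne_zero (GaloisField l g) hk hl
  have hdeg : (X ^ (l ^ k) - X : (GaloisField l g)[X]).natDegree = l ^ k :=
    FiniteField.X_pow_card_pow_sub_X_natDegree_eq (GaloisField l g) hk hl
  calc (Finset.univ.filter fun a : GaloisField l g => a ^ (l ^ k) = a).card
      ≤ ((X ^ (l ^ k) - X : (GaloisField l g)[X]).roots.toFinset).card := by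
        refine Finset.card_le_card fun a ha => ?_
        rw [Finset.mem_filter] at ha
        rw [Multiset.mem_toFinset, mem_roots hne, IsRoot.def, eval_sub, eval_pow, eval_X, ha.2,
          sub_self]
    _ ≤ Multiset.card (X ^ (l ^ k) - X : (GaloisField l g)[X]).roots :=
        Multiset.toFinset_card_le _
    _ ≤ (X ^ (l ^ k) - X : (GaloisField l g)[X]).natDegree := card_roots' _
    _ = l ^ k := hdeg

lemma geom_bound (l g : ℕ) (hl : 4 ≤ l) (hg : 1 ≤ g) :
    2 * ∑ k ∈ Finset.Ico 1 g, l ^ k ≤ l ^ g := by
  induction g, hg using Nat.le_induction with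
  | base => simp
  | succ g hg ih =>
    rw [Finset.sum_Ico_succ_top hg, mul_add, pow_succ]
    have : 4 * l ^ g ≤ l ^ g * l := by rw [mul_comm]; exact Nat.mul_le_mul_left _ hl
    omega

end Pool.Agent.AWP.IRRD_

namespace Pool.Agent.AWP

open Polynomial Finset Pool.Agent.AWP.IRRD_
open scoped BigOperators

/-- IRRD: a positive proportion of the polynomials modulo `l` is irreducible. -/
theorem p_IRRD : T_IRRD := by
  classical
  intro g hg
  have hg1 : (1 : ℝ) ≤ g := by exact_mod_cast hg
  refine ⟨1 / (2 * g), by positivity, ?_, 4, ?_⟩
  · rw [div_le_one (by positivity)]; linarith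
  intro l hl hl4
  have := Fact.mk hl
  have hg0 : g ≠ 0 := by omega
  have : Fintype (GaloisField l g) := Fintype.ofFinite _
  have hcard : Fintype.card (GaloisField l g) = l ^ g := by
    rw [← Nat.card_eq_fintype_card]
    exact GaloisField.card l g hg0
  set S : Finset (GaloisField l g) :=
    Finset.univ.filter fun a => (minpoly (ZMod l) a).natDegree = g with hS
  set T : Finset (Fin g → ZMod l) := Finset.univ.filter fun x => Irreducible (poly x) with hT
  -- the elements of smaller degree
  have hint : ∀ a : GaloisField l g, IsIntegral (ZMod l) a := fun a =>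
    Algebra.IsIntegral.isIntegral a
  have hsmall : (Finset.univ.filter fun a : GaloisField l g =>
      ¬ (minpoly (ZMod l) a).natDegree = g).card ≤ ∑ k ∈ Finset.Ico 1 g, l ^ k := by
    calc (Finset.univ.filter fun a : GaloisField l g =>
          ¬ (minpoly (ZMod l) a).natDegree = g).card
        ≤ ((Finset.Ico 1 g).biUnion fun k =>
            Finset.univ.filter fun a : GaloisField l g => a ^ (l ^ k) = a).card := by
          refine Finset.card_le_card fun a ha => ?_
          rw [Finset.mem_filter] at ha
          rw [Finset.mem_biUnion]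
          refine ⟨(minpoly (ZMod l) a).natDegree, ?_, ?_⟩
          · rw [Finset.mem_Ico]
            refine ⟨minpoly.natDegree_pos (hint a), lt_of_le_of_ne ?_ ha.2⟩
            have := minpoly.natDegree_le (A := ZMod l) a
            rwa [finrank_gf l g hg0] at this
          · rw [Finset.mem_filter]
            exact ⟨Finset.mem_univ _, pow_deg l g a⟩
      _ ≤ ∑ k ∈ Finset.Ico 1 g, (Finset.univ.filter fun a : GaloisField l g =>
            a ^ (l ^ k) = a).card := Finset.card_biUnion_le
      _ ≤ ∑ k ∈ Finset.Ico 1 g, l ^ k := by
          refine Finset.sum_le_sum fun k hk => ?_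
          rw [Finset.mem_Ico] at hk
          exact card_fix l g k (by omega)
  have hsplit : S.card + (Finset.univ.filter fun a : GaloisField l g =>
      ¬ (minpoly (ZMod l) a).natDegree = g).card = l ^ g := by
    rw [hS, Finset.card_filter_add_card_filter_not, Finset.card_univ, hcard]
  have hgeom := geom_bound l g hl4 hg
  have hSl : l ^ g ≤ 2 * S.card := by omega
  -- the map to the polynomials
  have hST : S.card ≤ g * T.card := by
    refine Finset.card_le_mul_card_image_of_maps_to
      (f := fun a : GaloisField l g => fun i : Fin g => (minpoly (ZMod l) a).coeff (g - 1 - i.val))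
      ?_ g ?_
    · intro a ha
      rw [hS, Finset.mem_filter] at ha
      rw [hT, Finset.mem_filter]
      refine ⟨Finset.mem_univ _, ?_⟩
      rw [poly_coeff _ (minpoly.monic (hint a)) ha.2]
      exact minpoly.irreducible (hint a)
    · intro x hx
      rw [hT, Finset.mem_filter] at hx
      have hxne : poly x ≠ 0 := hx.2.ne_zero
      by_cases hem : (S.filter fun a : GaloisField l g =>
          (fun i : Fin g => (minpoly (ZMod l) a).coeff (g - 1 - i.val)) = x).Nonempty
      · obtain ⟨a₀, ha₀⟩ := hem
        have hmin : ∀ a : GaloisField l g, a ∈ (S.filter fun a : GaloisField l g =>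
            (fun i : Fin g => (minpoly (ZMod l) a).coeff (g - 1 - i.val)) = x) →
            minpoly (ZMod l) a = poly x ∧ (poly x).natDegree = g := by
          intro a ha
          rw [Finset.mem_filter, hS, Finset.mem_filter] at ha
          have h1 : poly x = minpoly (ZMod l) a := by
            rw [← ha.2]
            exact poly_coeff _ (minpoly.monic (hint a)) ha.1.2
          exact ⟨h1.symm, by rw [h1]; exact ha.1.2⟩
        have hdeg := (hmin a₀ ha₀).2
        have hmapne : (poly x).map (algebraMap (ZMod l) (GaloisField l g)) ≠ 0 :=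
          (Polynomial.map_ne_zero_iff (algebraMap (ZMod l) (GaloisField l g)).injective).2 hxne
        calc (S.filter fun a : GaloisField l g =>
              (fun i : Fin g => (minpoly (ZMod l) a).coeff (g - 1 - i.val)) = x).card
            ≤ (((poly x).map (algebraMap (ZMod l) (GaloisField l g))).roots.toFinset).card := by
              refine Finset.card_le_card fun a ha => ?_
              rw [Multiset.mem_toFinset, mem_roots hmapne, IsRoot.def, eval_map_algebraMap,
                ← (hmin a ha).1]
              exact minpoly.aeval _ _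
          _ ≤ Multiset.card ((poly x).map (algebraMap (ZMod l) (GaloisField l g))).roots :=
              Multiset.toFinset_card_le _
          _ ≤ ((poly x).map (algebraMap (ZMod l) (GaloisField l g))).natDegree := card_roots' _
          _ = g := by rw [natDegree_map, hdeg]
      · rw [Finset.not_nonempty_iff_eq_empty] at hem
        rw [hem]
        simp
  -- conclusion
  have hnot : {x : Fin g → ZMod l | ¬ Irreducible (poly x)}.ncard + T.card = l ^ g := by
    have h1 : {x : Fin g → ZMod l | ¬ Irreducible (poly x)}.ncard =
        (Finset.univ.filter fun x : Fin g → ZMod l => ¬ Irreducible (poly x)).card := by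
      rw [← Set.ncard_coe_finset]
      congr 1
      ext x
      simp
    rw [h1, add_comm, hT, Finset.card_filter_add_card_filter_not, Finset.card_univ,
      Fintype.card_fun, ZMod.card, Fintype.card_fin]
  have h2 : ((l : ℝ)) ^ g ≤ 2 * g * T.card := by
    have : l ^ g ≤ 2 * (g * T.card) := le_trans hSl (by omega)
    have h3 : ((l ^ g : ℕ) : ℝ) ≤ ((2 * (g * T.card) : ℕ) : ℝ) := by exact_mod_cast this
    push_cast at h3
    linarith
  have h4 : (({x : Fin g → ZMod l | ¬ Irreducible (poly x)}.ncard : ℕ) : ℝ) + T.card =
      (l : ℝ) ^ g := by exact_mod_cast hnot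
  have h5 : (l : ℝ) ^ g / (2 * g) ≤ T.card := by
    rw [div_le_iff₀ (by positivity)]
    linarith
  have h6 : (1 - 1 / (2 * (g : ℝ))) * (l : ℝ) ^ g = (l : ℝ) ^ g - (l : ℝ) ^ g / (2 * g) := by ring
  rw [h6]
  linarith

end Pool.Agent.AWP
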