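import Pool.Agent.AWP.Targets

set_option autoImplicit false

namespace Pool.Agent.AWP.LOWER_

open Polynomial Finset
open scoped BigOperators

/-! ### the polynomial of a vector -/

lemma degree_rest {R : Type} [CommRing R] {g : ℕ} (b : Fin g → R) :
    (∑ i : Fin g, C (b i) * X ^ (g - 1 - i.val)).degree < (g : WithBot ℕ) := by
  refine (degree_sum_le _ _).trans_lt ((Finset.sup_lt_iff (WithBot.bot_lt_coe g)).2 ?_)
  intro i _
  refine (degree_C_mul_X_pow_le _ _).trans_lt ?_
  have : g - 1 - i.val < g := by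
    have := i.2
    omega
  exact Nat.cast_lt.2 this

lemma poly_monic {R : Type} [CommRing R] {g : ℕ} (b : Fin g → R) : (poly b).Monic :=
  monic_X_pow_add (degree_rest b)

lemma poly_natDegree {R : Type} [CommRing R] [Nontrivial R] {g : ℕ} (b : Fin g → R) :
    (poly b).natDegree = g := by
  unfold poly
  rw [natDegree_add_eq_left_of_degree_lt, natDegree_X_pow]
  rw [degree_X_pow]
  exact degree_rest b

lemma eval_poly {R : Type} [CommRing R] {g : ℕ} (b : Fin g → R) (t : R) :
    (poly b).eval t = t ^ g + ∑ i : Fin g, b i * t ^ (g - 1 - i.val) := by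
  unfold poly
  simp [eval_finsetSum]

lemma aeval_poly {g : ℕ} (b : Fin g → ℤ) (z : ℂ) :
    aeval z (poly b) = (poly (fun i => (b i : ℂ))).eval z := by
  rw [eval_poly]
  unfold poly
  simp

lemma eq_poly {g : ℕ} (p : ℝ[X]) (hp : p.Monic) (hd : p.natDegree = g) :
    p = poly (fun i : Fin g => p.coeff (g - 1 - i.val)) := by
  unfold poly
  have h1 := hp.as_sum
  rw [hd] at h1
  rw [← Finset.sum_range_reflect, ] at h1
  rw [Fin.sum_univ_eq_sum_range (fun i => C (p.coeff (g - 1 - i)) * X ^ (g - 1 - i)) g]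
  exact h1

/-! ### the model polynomial -/

/-- the roots of the model polynomial -/
noncomputable def th (g : ℕ) (k : Fin g) : ℝ := -2 + (4 * (k.val : ℝ) + 2) / g

/-- the points between the roots -/
noncomputable def tt (g k : ℕ) : ℝ := -2 + 4 * (k : ℝ) / g

/-- the sign at `tt g k` -/
noncomputable def sg (g k : ℕ) : ℝ := ∏ m : Fin g, if m.val < k then (1 : ℝ) else -1

/-- the model polynomial -/
noncomputable def PP (g : ℕ) : ℝ[X] := ∏ k : Fin g, (X - C (th g k))

lemma PP_monic (g : ℕ) : (PP g).Monic := monic_prod_of_monic _ _ fun _ _ => monic_X_sub_C _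

lemma PP_natDegree (g : ℕ) : (PP g).natDegree = g := by
  unfold PP
  rw [natDegree_prod_of_monic _ _ fun _ _ => monic_X_sub_C _]
  simp

lemma sg_mul {g k : ℕ} (hk : k < g) : sg g k * sg g (k + 1) = -1 := by
  unfold sg
  rw [← Finset.prod_mul_distrib]
  have h : ∀ m : Fin g, (if m.val < k then (1 : ℝ) else -1) * (if m.val < k + 1 then 1 else -1) =
      if (⟨k, hk⟩ : Fin g) = m then -1 else 1 := by
    intro m
    by_cases h1 : (⟨k, hk⟩ : Fin g) = m
    · rw [if_pos h1]
      subst h1
      simp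
    · rw [if_neg h1]
      have h2 : m.val ≠ k := fun h => h1 (Fin.ext h.symm)
      by_cases h3 : m.val < k
      · rw [if_pos h3, if_pos (by omega)]
        norm_num
      · rw [if_neg h3, if_neg (by omega)]
        norm_num
  rw [Finset.prod_congr rfl fun m _ => h m, Finset.prod_ite_eq]
  simp

lemma sg_abs (g k : ℕ) : |sg g k| = 1 := by
  unfold sg
  rw [Finset.abs_prod]
  apply Finset.prod_eq_one
  intro m _
  split_ifs <;> simp

lemma sg_PP (g k : ℕ) : (2 / (g : ℝ)) ^ g ≤ sg g k * (PP g).eval (tt g k) := by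
  unfold PP sg
  rw [eval_prod, ← Finset.prod_mul_distrib]
  have h1 : (2 / (g : ℝ)) ^ g = ∏ _m : Fin g, (2 / (g : ℝ)) := by
    rw [Finset.prod_const, card_univ, Fintype.card_fin]
  rw [h1]
  apply Finset.prod_le_prod
  · intro m _
    positivity
  · intro m _
    have hg : (0 : ℝ) < g := by
      have := m.pos
      exact_mod_cast this
    rw [eval_sub, eval_X, eval_C]
    have h2 : tt g k - th g m = (4 * ((k : ℝ) - m.val) - 2) / g := by
      unfold tt th
      ring
    rw [h2]
    split_ifs with h3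
    · rw [one_mul]
      apply div_le_div_of_nonneg_right _ hg.le
      have : (m.val : ℝ) + 1 ≤ k := by exact_mod_cast h3
      linarith
    · rw [neg_one_mul, ← neg_div]
      apply div_le_div_of_nonneg_right _ hg.le
      have : (k : ℝ) ≤ m.val := by
        have : k ≤ m.val := by omega
        exact_mod_cast this
      linarith

lemma tt_mono {g k l : ℕ} (h : k ≤ l) : tt g k ≤ tt g l := by
  unfold tt
  have : (k : ℝ) ≤ l := by exact_mod_cast h
  have h2 : 4 * (k : ℝ) / g ≤ 4 * (l : ℝ) / g := by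
    apply div_le_div_of_nonneg_right _ (Nat.cast_nonneg g)
    linarith
  linarith

lemma tt_zero (g : ℕ) : tt g 0 = -2 := by
  unfold tt
  simp

lemma tt_top {g : ℕ} (hg : 0 < g) : tt g g = 2 := by
  unfold tt
  have : (g : ℝ) ≠ 0 := by
    have : g ≠ 0 := by omega
    exact_mod_cast this
  field_simp
  norm_num

/-- the sum of the powers of two -/
noncomputable def MM (g : ℕ) : ℝ := ∑ i : Fin g, (2 : ℝ) ^ (g - 1 - i.val) + 1

lemma MM_pos (g : ℕ) : 0 < MM g := by
  unfold MM
  positivity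

lemma diff_le {g : ℕ} {β β' : Fin g → ℝ} {η t : ℝ} (h : ∀ i, |β i - β' i| ≤ η)
    (hη : 0 ≤ η) (ht : |t| ≤ 2) : |(poly β).eval t - (poly β').eval t| ≤ η * MM g := by
  rw [eval_poly, eval_poly]
  have h1 : t ^ g + ∑ i : Fin g, β i * t ^ (g - 1 - i.val) -
      (t ^ g + ∑ i : Fin g, β' i * t ^ (g - 1 - i.val)) =
      ∑ i : Fin g, (β i - β' i) * t ^ (g - 1 - i.val) := by
    rw [add_sub_add_left_eq_sub, ← Finset.sum_sub_distrib]
    refine Finset.sum_congr rfl fun i _ => ?_
    ring
  rw [h1]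
  refine (Finset.abs_sum_le_sum_abs _ _).trans ?_
  have h2 : ∀ i ∈ (univ : Finset (Fin g)), |(β i - β' i) * t ^ (g - 1 - i.val)| ≤
      η * 2 ^ (g - 1 - i.val) := by
    intro i _
    rw [abs_mul, abs_pow]
    exact mul_le_mul (h i) (pow_le_pow_left₀ (abs_nonneg t) ht _) (by positivity) hη
  refine (Finset.sum_le_sum h2).trans ?_
  unfold MM
  rw [← Finset.mul_sum, mul_add]
  linarith

/-- the size of the perturbation -/
noncomputable def et (g : ℕ) : ℝ := (2 / (g : ℝ)) ^ g / (2 * MM g)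

lemma et_pos (g : ℕ) : 0 < et g := by
  unfold et
  have h1 : 0 < (2 / (g : ℝ)) ^ g := by
    rcases Nat.eq_zero_or_pos g with h | h
    · subst h
      simp
    · have : (0 : ℝ) < g := by exact_mod_cast h
      positivity
  have := MM_pos g
  positivity

/-- the coefficients of the model polynomial -/
noncomputable def be (g : ℕ) (i : Fin g) : ℝ := (PP g).coeff (g - 1 - i.val)

/-- a small perturbation has `g` different roots in `[-2, 2]` -/
lemma roots {g : ℕ} {β : Fin g → ℝ} (h : ∀ i, |β i - be g i| ≤ et g) :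
    ∃ y : Fin g → ℝ, StrictMono y ∧ ∀ k, (poly β).eval (y k) = 0 ∧ |y k| ≤ 2 := by
  have hP : PP g = poly (be g) := eq_poly (PP g) (PP_monic g) (PP_natDegree g)
  have hμ : 0 < (2 / (g : ℝ)) ^ g := by
    have h1 := et_pos g
    unfold et at h1
    by_contra hcon
    push Not at hcon
    have := div_nonpos_of_nonpos_of_nonneg hcon (by have := MM_pos g; positivity : 0 ≤ 2 * MM g)
    linarith
  have hbd : ∀ k, k ≤ g → 0 < g → |tt g k| ≤ 2 := by
    intro k hk hg
    rw [abs_le]
    have h1 := tt_mono (g := g) (Nat.zero_le k)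
    have h2 := tt_mono (g := g) hk
    rw [tt_zero] at h1
    rw [tt_top hg] at h2
    exact ⟨h1, h2⟩
  have hsg : ∀ k, k ≤ g → 0 < g → 0 < sg g k * (poly β).eval (tt g k) := by
    intro k hk hg
    have h1 := sg_PP g k
    have h2 := diff_le h (et_pos g).le (hbd k hk hg)
    rw [← hP] at h2
    have h3 : et g * MM g = (2 / (g : ℝ)) ^ g / 2 := by
      unfold et
      have := (MM_pos g).ne'
      field_simp
    rw [h3] at h2
    have h4 : |sg g k * ((poly β).eval (tt g k) - (PP g).eval (tt g k))| ≤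
        (2 / (g : ℝ)) ^ g / 2 := by
      rw [abs_mul, sg_abs, one_mul]
      exact h2
    have h5 := (abs_le.1 h4).1
    have h6 : sg g k * (poly β).eval (tt g k) = sg g k * (PP g).eval (tt g k) +
        sg g k * ((poly β).eval (tt g k) - (PP g).eval (tt g k)) := by ring
    rw [h6]
    linarith
  have hroot : ∀ k : Fin g, ∃ y ∈ Set.Ioo (tt g k.val) (tt g (k.val + 1)),
      (poly β).eval y = 0 := by
    intro k
    have hg : 0 < g := k.pos
    have h1 := hsg k.val k.2.le hg
    have h2 := hsg (k.val + 1) k.2 hg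
    have h3 := mul_pos h1 h2
    have h4 : sg g k.val * (poly β).eval (tt g k.val) *
        (sg g (k.val + 1) * (poly β).eval (tt g (k.val + 1))) =
        -((poly β).eval (tt g k.val) * (poly β).eval (tt g (k.val + 1))) := by
      have := sg_mul k.2
      linear_combination ((poly β).eval (tt g k.val) * (poly β).eval (tt g (k.val + 1))) * this
    rw [h4] at h3
    have h5 : (poly β).eval (tt g k.val) * (poly β).eval (tt g (k.val + 1)) < 0 := by linarith
    have hle : tt g k.val ≤ tt g (k.val + 1) := tt_mono (Nat.le_succ _)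
    have hcont : ContinuousOn (fun t => (poly β).eval t) (Set.Icc (tt g k.val) (tt g (k.val + 1))) :=
      (poly β).continuous.continuousOn
    rcases mul_neg_iff.1 h5 with ⟨a, b⟩ | ⟨a, b⟩
    · obtain ⟨y, hy, hy'⟩ := intermediate_value_Ioo' hle hcont ⟨b, a⟩
      exact ⟨y, hy, hy'⟩
    · obtain ⟨y, hy, hy'⟩ := intermediate_value_Ioo hle hcont ⟨a, b⟩
      exact ⟨y, hy, hy'⟩
  choose y hy hy0 using hroot
  refine ⟨y, ?_, fun k => ⟨hy0 k, ?_⟩⟩
  · intro k l hkl
    have h1 : tt g (k.val + 1) ≤ tt g l.val := tt_mono (by exact hkl)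
    exact (hy k).2.trans_le (h1.trans (hy l).1.le)
  · have hg : 0 < g := k.pos
    have h1 := abs_le.1 (hbd k.val k.2.le hg)
    have h2 := abs_le.1 (hbd (k.val + 1) k.2 hg)
    rw [abs_le]
    exact ⟨h1.1.trans (hy k).1.le, (hy k).2.le.trans h2.2⟩

/-- vectors of integers near the scaled model are real Weil polynomials -/
lemma real_weil {g q : ℕ} (hq : 0 < q) {b : Fin g → ℤ}
    (h : ∀ i, |(b i : ℝ) - be g i * Real.sqrt q ^ (i.val + 1)| ≤
      et g * Real.sqrt q ^ (i.val + 1)) : IsRealWeil q b := by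
  have hs : 0 < Real.sqrt q := Real.sqrt_pos.2 (by exact_mod_cast hq)
  set s := Real.sqrt q with hsdef
  obtain ⟨y, hy, hy'⟩ := roots (β := fun i => (b i : ℝ) / s ^ (i.val + 1)) (fun i => by
    have h1 : 0 < s ^ (i.val + 1) := by positivity
    have h2 : (b i : ℝ) / s ^ (i.val + 1) - be g i =
        ((b i : ℝ) - be g i * s ^ (i.val + 1)) / s ^ (i.val + 1) := by
      field_simp
    rw [h2, abs_div, abs_of_pos h1, div_le_iff₀ h1]
    exact h i)
  have hval : ∀ t : ℝ, (poly (fun i => (b i : ℝ))).eval (s * t) =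
      s ^ g * (poly (fun i : Fin g => (b i : ℝ) / s ^ (i.val + 1))).eval t := by
    intro t
    rw [eval_poly, eval_poly, mul_add, mul_pow, Finset.mul_sum]
    congr 1
    refine Finset.sum_congr rfl fun i _ => ?_
    have h1 : s ^ g = s ^ (i.val + 1) * s ^ (g - 1 - i.val) := by
      rw [← pow_add]
      congr 1
      have := i.2
      omega
    rw [h1, mul_pow]
    field_simp
  intro z hz
  rw [aeval_poly] at hz
  by_contra hcon
  push Not at hcon
  have hzy : ∀ k, z ≠ ((s * y k : ℝ) : ℂ) := by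
    intro k hk
    have h1 := hcon (s * y k) hk
    have h2 : (s * y k) ^ 2 ≤ 4 * q := by
      rw [mul_pow, hsdef, Real.sq_sqrt (Nat.cast_nonneg q)]
      have h3 := sq_le_sq' (abs_le.1 (hy' k).2).1 (abs_le.1 (hy' k).2).2
      have h4 : (0 : ℝ) ≤ q := Nat.cast_nonneg q
      nlinarith
    linarith
  have hroot : ∀ k, (poly (fun i => (b i : ℂ))).eval ((s * y k : ℝ) : ℂ) = 0 := by
    intro k
    have h1 : (poly (fun i => (b i : ℂ))).eval ((s * y k : ℝ) : ℂ) =
        (((poly (fun i => (b i : ℝ))).eval (s * y k) : ℝ) : ℂ) := by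
      rw [eval_poly, eval_poly]
      push_cast
      rfl
    rw [h1, hval, (hy' k).1, mul_zero]
    rfl
  have hne : poly (fun i => (b i : ℂ)) ≠ 0 := (poly_monic _).ne_zero
  set R : Finset ℂ := insert z (univ.image fun k => ((s * y k : ℝ) : ℂ)) with hR
  have hRsub : R.val ⊆ (poly (fun i => (b i : ℂ))).roots := by
    intro w hw
    have hw' : w ∈ R := hw
    rw [hR, mem_insert, mem_image] at hw'
    rw [mem_roots hne, IsRoot.def]
    rcases hw' with rfl | ⟨k, -, rfl⟩
    · exact hz
    · exact hroot k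
  have hcard := card_le_degree_of_subset_roots hRsub
  rw [poly_natDegree] at hcard
  have hinj : Function.Injective fun k => ((s * y k : ℝ) : ℂ) := by
    intro k l hkl
    have h1 : s * y k = s * y l := Complex.ofReal_injective hkl
    exact hy.injective (mul_left_cancel₀ hs.ne' h1)
  have hcard2 : R.card = g + 1 := by
    rw [hR, card_insert_of_notMem, card_image_of_injective _ hinj, card_univ, Fintype.card_fin]
    rw [mem_image]
    rintro ⟨k, -, hk⟩
    exact hzy k hk.symm
  omega

/-- integers in an interval -/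
lemma card_Icc_ge (x y : ℝ) (hy : 1 ≤ y) : y ≤ ((Icc ⌈x - y⌉ ⌊x + y⌋).card : ℝ) := by
  rw [Int.card_Icc]
  have h1 : x + y < ⌊x + y⌋ + 1 := Int.lt_floor_add_one _
  have h2 : (⌈x - y⌉ : ℝ) < x - y + 1 := Int.ceil_lt_add_one _
  have h3 : ((⌊x + y⌋ + 1 - ⌈x - y⌉ : ℤ) : ℝ) ≤ (((⌊x + y⌋ + 1 - ⌈x - y⌉).toNat : ℕ) : ℝ) := by
    have : (⌊x + y⌋ + 1 - ⌈x - y⌉ : ℤ) ≤ (((⌊x + y⌋ + 1 - ⌈x - y⌉).toNat : ℕ) : ℤ) :=
      Int.self_le_toNat _
    exact_mod_cast this
  push_cast at h3
  linarith

lemma finite_weil (h : T_UPPER) (g q : ℕ) : {b : Fin g → ℤ | IsRealWeil q b}.Finite := by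
  refine Set.Finite.subset (Finset.finite_toSet (Fintype.piFinset fun i : Fin g =>
    Icc (-⌊4 ^ g * Real.sqrt q ^ (i.val + 1)⌋) ⌊4 ^ g * Real.sqrt q ^ (i.val + 1)⌋)) ?_
  intro b hb
  rw [Finset.mem_coe, Fintype.mem_piFinset]
  intro i
  have h1 := abs_le.1 (h g q b hb i)
  rw [mem_Icc]
  constructor
  · have : -(b i) ≤ ⌊4 ^ g * Real.sqrt q ^ (i.val + 1)⌋ := by
      rw [Int.le_floor]
      push_cast
      linarith
    linarith
  · rw [Int.le_floor]
    exact h1.2

end Pool.Agent.AWP.LOWER_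

namespace Pool.Agent.AWP

open Polynomial Finset LOWER_
open scoped BigOperators

theorem p_LOWER (h : T_UPPER) : T_LOWER := by
  intro g
  have het := et_pos g
  obtain ⟨q₀, hq₀⟩ := exists_nat_ge ((1 / et g) ^ 2)
  refine ⟨et g ^ g, pow_pos het g, q₀ + 1, fun q hq => ?_⟩
  have hq0 : 0 < q := by omega
  have hq1 : (1 : ℝ) ≤ q := by exact_mod_cast hq0
  have hs1 : 1 ≤ Real.sqrt q := by
    rw [Real.one_le_sqrt]
    exact hq1
  have hs2 : 1 / et g ≤ Real.sqrt q := by
    apply Real.le_sqrt_of_sq_le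
    have : (q₀ : ℝ) ≤ q := by
      have : q₀ ≤ q := by omega
      exact_mod_cast this
    linarith
  have hbig : ∀ i : Fin g, 1 ≤ et g * Real.sqrt q ^ (i.val + 1) := by
    intro i
    have h1 : Real.sqrt q ≤ Real.sqrt q ^ (i.val + 1) := le_self_pow₀ hs1 (by omega)
    rw [div_le_iff₀ het] at hs2
    nlinarith
  set S : Finset (Fin g → ℤ) := Fintype.piFinset fun i : Fin g =>
    Icc ⌈be g i * Real.sqrt q ^ (i.val + 1) - et g * Real.sqrt q ^ (i.val + 1)⌉
      ⌊be g i * Real.sqrt q ^ (i.val + 1) + et g * Real.sqrt q ^ (i.val + 1)⌋ with hS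
  have hsub : (S : Set (Fin g → ℤ)) ⊆ {b : Fin g → ℤ | IsRealWeil q b} := by
    intro b hb
    rw [Finset.mem_coe, hS, Fintype.mem_piFinset] at hb
    apply real_weil hq0
    intro i
    have h1 := mem_Icc.1 (hb i)
    have h2 := Int.ceil_le.1 h1.1
    have h3 := Int.le_floor.1 h1.2
    rw [abs_le]
    constructor
    · linarith
    · linarith
  have h1 : S.card ≤ {b : Fin g → ℤ | IsRealWeil q b}.ncard := by
    rw [← Set.ncard_coe_finset]
    exact Set.ncard_le_ncard hsub (finite_weil h g q)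
  have h2 : et g ^ g * ∏ i : Fin g, Real.sqrt q ^ (i.val + 1) ≤ (S.card : ℝ) := by
    rw [hS, Fintype.card_piFinset]
    push_cast
    have h3 : et g ^ g * ∏ i : Fin g, Real.sqrt q ^ (i.val + 1) =
        ∏ i : Fin g, et g * Real.sqrt q ^ (i.val + 1) := by
      rw [Finset.prod_mul_distrib, Finset.prod_const, card_univ, Fintype.card_fin]
    rw [h3]
    apply Finset.prod_le_prod
    · intro i _
      have := hbig i
      linarith
    · intro i _
      exact card_Icc_ge _ _ (hbig i)
  exact h2.trans (by exact_mod_cast h1)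

end Pool.Agent.AWP
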