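import Pool.Agent.AWP.Targets

set_option autoImplicit false

/-!
# Almost all tuples of real Weil polynomials are good: assembly of the counting
-/

namespace Pool.Agent.AWP

open Polynomial Finset
open Pool.Agent.CMT (QBar)
open scoped BigOperators

namespace MAIN_

theorem finite_box {ι : Type} [Fintype ι] (S : ι → ℝ) :
    {x : ι → ℤ | ∀ i, |(x i : ℝ)| ≤ S i}.Finite := by
  refine (Set.Finite.pi' (t := fun i => Set.Icc (-⌈S i⌉) ⌈S i⌉)
    (fun i => Set.finite_Icc _ _)).subset ?_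
  intro x hx i
  have h1 := abs_le.1 (hx i)
  have h2 := Int.le_ceil (S i)
  constructor
  · have h3 : ((-⌈S i⌉ : ℤ) : ℝ) ≤ (x i : ℝ) := by
      push_cast
      linarith
    exact_mod_cast h3
  · have h3 : (x i : ℝ) ≤ (⌈S i⌉ : ℝ) := by linarith
    exact_mod_cast h3

theorem ncard_pi {r : ℕ} {g : Fin r → ℕ} (A : ∀ j, Set (Fin (g j) → ℤ))
    (hA : ∀ j, (A j).Finite) :
    {b : ∀ j, Fin (g j) → ℤ | ∀ j, b j ∈ A j}.Finite ∧
      {b : ∀ j, Fin (g j) → ℤ | ∀ j, b j ∈ A j}.ncard = ∏ j, (A j).ncard := by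
  classical
  have h1 : {b : ∀ j, Fin (g j) → ℤ | ∀ j, b j ∈ A j} =
      ((Fintype.piFinset fun j => (hA j).toFinset : Finset (∀ j, Fin (g j) → ℤ)) :
        Set (∀ j, Fin (g j) → ℤ)) := by
    ext b
    simp
  rw [h1]
  refine ⟨Finset.finite_toSet _, ?_⟩
  rw [Set.ncard_coe_finset, Fintype.card_piFinset]
  exact prod_congr rfl fun j _ => (Set.ncard_eq_toFinset_card _ (hA j)).symm

/-- real Weil polynomials of degree `G` -/
def RW (G q : ℕ) : Set (Fin G → ℤ) := {b | IsRealWeil q b}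

/-- the main term -/
noncomputable def VV (G q : ℕ) : ℝ := ∏ i : Fin G, Real.sqrt q ^ (i.val + 1)

/-- the constant -/
noncomputable def Kc (G : ℕ) : ℝ := ∏ _i : Fin G, (2 * (4 : ℝ) ^ G + 1)

theorem Kc_one_le (G : ℕ) : 1 ≤ Kc G := by
  unfold Kc
  rw [prod_const]
  refine one_le_pow₀ ?_
  have : (0 : ℝ) ≤ 2 * 4 ^ G := by positivity
  linarith

theorem finite_RW (h2 : T_UPPER) (G q : ℕ) : (RW G q).Finite :=
  (finite_box (fun i : Fin G => (4 : ℝ) ^ G * Real.sqrt q ^ (i.val + 1))).subset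
    (fun b hb => h2 G q b hb)

theorem VV_pos (G q : ℕ) (hq : 1 ≤ Real.sqrt q) : 0 < VV G q :=
  prod_pos fun i _ => pow_pos (by linarith) _

theorem prod_le (G q : ℕ) (Q : ℝ) (hQ0 : 0 ≤ Q) (hQ : 1 + Q ≤ Real.sqrt q) :
    ∏ i : Fin G, (2 * ((4 : ℝ) ^ G * Real.sqrt q ^ (i.val + 1)) + 1 + Q) ≤ Kc G * VV G q := by
  unfold Kc VV
  rw [← prod_mul_distrib]
  refine prod_le_prod (fun i _ => by positivity) fun i _ => ?_
  have h1 : 1 ≤ Real.sqrt q := by linarith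
  have h2 : Real.sqrt q ≤ Real.sqrt q ^ (i.val + 1) := by
    rw [pow_succ]
    exact le_mul_of_one_le_left (by linarith) (one_le_pow₀ h1)
  nlinarith

theorem crt_le (h3 : T_CRTB) {ι : Type} [Fintype ι] (P : Finset ℕ) (hP : ∀ l ∈ P, l.Prime)
    (B : (l : ℕ) → Set (ι → ZMod l)) (S : ι → ℝ) (hS : ∀ i, 0 ≤ S i) (δ : ℝ)
    (hB : ∀ l ∈ P, (((B l).ncard : ℕ) : ℝ) ≤ (1 - δ) * (l : ℝ) ^ Fintype.card ι) :
    (({x : ι → ℤ | (∀ i, |(x i : ℝ)| ≤ S i) ∧
      ∀ l ∈ P, (fun i => (x i : ZMod l)) ∈ B l}.ncard : ℕ) : ℝ) ≤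
      (1 - δ) ^ P.card * ∏ i, (2 * S i + 1 + ∏ l ∈ P, (l : ℝ)) := by
  refine (h3 ι P hP B S hS).trans (mul_le_mul_of_nonneg_right ?_ ?_)
  · rw [← prod_const]
    refine prod_le_prod (fun l _ => by positivity) fun l hl => ?_
    have h0 : (0 : ℝ) < (l : ℝ) ^ Fintype.card ι := by
      have : (0 : ℝ) < l := by exact_mod_cast (hP l hl).pos
      positivity
    rw [div_le_iff₀ h0]
    exact hB l hl
  · refine prod_nonneg fun i _ => ?_
    have h1 := hS i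
    have h2 : (0 : ℝ) ≤ ∏ l ∈ P, (l : ℝ) := prod_nonneg fun l _ => Nat.cast_nonneg l
    linarith

theorem card_RW (h2 : T_UPPER) (h3 : T_CRTB) (G q : ℕ) (hq : 2 ≤ Real.sqrt q) :
    (((RW G q).ncard : ℕ) : ℝ) ≤ Kc G * VV G q := by
  have h4 := crt_le h3 (ι := Fin G) ∅ (by simp) (fun _ => Set.univ)
    (fun i : Fin G => (4 : ℝ) ^ G * Real.sqrt q ^ (i.val + 1)) (fun i => by positivity) 0 (by simp)
  have h5 : (((RW G q).ncard : ℕ) : ℝ) ≤ (({x : Fin G → ℤ | (∀ i, |(x i : ℝ)| ≤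
      (4 : ℝ) ^ G * Real.sqrt q ^ (i.val + 1)) ∧ ∀ l ∈ (∅ : Finset ℕ),
      (fun i => (x i : ZMod l)) ∈ (Set.univ : Set (Fin G → ZMod l))}.ncard : ℕ) : ℝ) := by
    have h6 : RW G q ⊆ {x : Fin G → ℤ | (∀ i, |(x i : ℝ)| ≤
        (4 : ℝ) ^ G * Real.sqrt q ^ (i.val + 1)) ∧ ∀ l ∈ (∅ : Finset ℕ),
        (fun i => (x i : ZMod l)) ∈ (Set.univ : Set (Fin G → ZMod l))} :=
      fun b hb => ⟨h2 G q b hb, by simp⟩
    exact_mod_cast Set.ncard_le_ncard h6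
      ((finite_box (fun i : Fin G => (4 : ℝ) ^ G * Real.sqrt q ^ (i.val + 1))).subset
        (fun b hb => hb.1))
  refine (h5.trans h4).trans ?_
  rw [card_empty, pow_zero, one_mul, prod_empty]
  exact prod_le G q 1 zero_le_one (by linarith)

/-- the first kind of exceptions: no prime with the pattern -/
theorem bad1 (h2 : T_UPPER) (h3 : T_CRTB) {r : ℕ} (g : Fin r → ℕ) (q : ℕ) (j : Fin r)
    (P : Finset ℕ) (hP : ∀ l ∈ P, l.Prime) (δ : ℝ) (hδ : δ ≤ 1)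
    (hpat : ∀ l ∈ P, (({x : ∀ j, Fin (g j) → ZMod l | ¬ Pattern l q j x}.ncard : ℕ) : ℝ) ≤
      (1 - δ) * (l : ℝ) ^ Fintype.card (Σ j, Fin (g j)))
    (hQ : 1 + ∏ l ∈ P, (l : ℝ) ≤ Real.sqrt q) :
    (({b ∈ Tuples g q | ∀ l ∈ P, ¬ Pattern l q j (red l b)}.ncard : ℕ) : ℝ) ≤
      (1 - δ) ^ P.card * ∏ i, (Kc (g i) * VV (g i) q) := by
  set S : (Σ j, Fin (g j)) → ℝ :=
    fun s => (4 : ℝ) ^ (g s.1) * Real.sqrt q ^ (s.2.val + 1) with hS
  set B : (l : ℕ) → Set ((Σ j, Fin (g j)) → ZMod l) :=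
    fun l => {x | ¬ Pattern l q j (fun i k => x ⟨i, k⟩)} with hB
  have h4 := crt_le h3 P hP B S (fun s => by positivity) δ (fun l hl => by
    have hl' := hP l hl
    have : Fact l.Prime := ⟨hl'⟩
    refine le_trans ?_ (hpat l hl)
    have h5 : (B l).ncard ≤ {x : ∀ j, Fin (g j) → ZMod l | ¬ Pattern l q j x}.ncard := by
      refine Set.ncard_le_ncard_of_injOn (fun x i k => x ⟨i, k⟩) (fun x hx => hx) ?_
        (Set.toFinite _)
      intro x _ x' _ h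
      funext s
      exact congrFun (congrFun h s.1) s.2
    exact_mod_cast h5)
  have h5 : {b ∈ Tuples g q | ∀ l ∈ P, ¬ Pattern l q j (red l b)}.ncard ≤
      {x : (Σ j, Fin (g j)) → ℤ | (∀ i, |(x i : ℝ)| ≤ S i) ∧
        ∀ l ∈ P, (fun i => (x i : ZMod l)) ∈ B l}.ncard := by
    refine Set.ncard_le_ncard_of_injOn (fun b s => b s.1 s.2) ?_ ?_
      ((finite_box S).subset fun x hx => hx.1)
    · intro b hb
      exact ⟨fun s => h2 (g s.1) q (b s.1) (hb.1 s.1) s.2, fun l hl => hb.2 l hl⟩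
    · intro b _ b' _ h
      funext i k
      exact congrFun h ⟨i, k⟩
  have h6 : ∏ s, (2 * S s + 1 + ∏ l ∈ P, (l : ℝ)) ≤ ∏ i, (Kc (g i) * VV (g i) q) := by
    rw [Fintype.prod_sigma]
    have hQ0 : (0 : ℝ) ≤ ∏ l ∈ P, (l : ℝ) := prod_nonneg fun l _ => Nat.cast_nonneg l
    refine prod_le_prod (fun i _ => prod_nonneg fun k _ => ?_) fun i _ =>
      prod_le (g i) q _ hQ0 hQ
    have : 0 ≤ S ⟨i, k⟩ := by positivity
    linarith
  have h7 : (({b ∈ Tuples g q | ∀ l ∈ P, ¬ Pattern l q j (red l b)}.ncard : ℕ) : ℝ) ≤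
      (({x : (Σ j, Fin (g j)) → ℤ | (∀ i, |(x i : ℝ)| ≤ S i) ∧
        ∀ l ∈ P, (fun i => (x i : ZMod l)) ∈ B l}.ncard : ℕ) : ℝ) := by exact_mod_cast h5
  exact (h7.trans h4).trans (mul_le_mul_of_nonneg_left h6 (pow_nonneg (by linarith) _))

/-- tuples with a condition on one member -/
theorem one_cond (h2 : T_UPPER) (h3 : T_CRTB) {r : ℕ} (g : Fin r → ℕ) (q : ℕ)
    (hq : 2 ≤ Real.sqrt q) (j : Fin r) (Y : Set (Fin (g j) → ℤ)) (hY : Y ⊆ RW (g j) q) (η : ℝ)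
    (hη : ((Y.ncard : ℕ) : ℝ) ≤ η * (Kc (g j) * VV (g j) q)) :
    (({b ∈ Tuples g q | b j ∈ Y}.ncard : ℕ) : ℝ) ≤ η * ∏ i, (Kc (g i) * VV (g i) q) := by
  classical
  set A : ∀ i, Set (Fin (g i) → ℤ) :=
    Function.update (fun i => RW (g i) q) j Y with hA
  have hAj : A j = Y := by rw [hA, Function.update_self]
  have hAi : ∀ i, i ≠ j → A i = RW (g i) q := fun i hi => by rw [hA, Function.update_of_ne hi]
  have hAf : ∀ i, (A i).Finite := by
    intro i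
    by_cases hi : i = j
    · subst hi
      rw [hAj]
      exact (finite_RW h2 _ q).subset hY
    · rw [hAi i hi]
      exact finite_RW h2 _ q
  have h4 : {b ∈ Tuples g q | b j ∈ Y}.ncard ≤ ∏ i, (A i).ncard := by
    rw [← (ncard_pi A hAf).2]
    refine Set.ncard_le_ncard ?_ (ncard_pi A hAf).1
    rintro b ⟨hb1, hb2⟩ i
    by_cases hi : i = j
    · subst hi
      rw [hAj]
      exact hb2
    · rw [hAi i hi]
      exact hb1 i
  have h5 : (({b ∈ Tuples g q | b j ∈ Y}.ncard : ℕ) : ℝ) ≤ ∏ i, (((A i).ncard : ℕ) : ℝ) := by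
    exact_mod_cast h4
  refine h5.trans ?_
  rw [← mul_prod_erase univ _ (mem_univ j), ← mul_prod_erase univ
    (fun i => Kc (g i) * VV (g i) q) (mem_univ j), ← mul_assoc, hAj]
  refine mul_le_mul hη ?_ (prod_nonneg fun i _ => Nat.cast_nonneg _)
    (le_trans (Nat.cast_nonneg _) hη)
  refine prod_le_prod (fun i _ => Nat.cast_nonneg _) fun i hi => ?_
  rw [hAi i (ne_of_mem_erase hi)]
  exact card_RW h2 h3 _ q hq

/-- the second kind of exceptions: irreducible modulo no prime of `P` -/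
theorem bad2 (h2 : T_UPPER) (h3 : T_CRTB) (G q : ℕ) (P : Finset ℕ) (hP : ∀ l ∈ P, l.Prime)
    (δ : ℝ) (hδ : δ ≤ 1)
    (hirr : ∀ l ∈ P, (({x : Fin G → ZMod l | ¬ Irreducible (poly x)}.ncard : ℕ) : ℝ) ≤
      (1 - δ) * (l : ℝ) ^ G)
    (hQ : 1 + ∏ l ∈ P, (l : ℝ) ≤ Real.sqrt q) :
    (({x ∈ RW G q | ∀ l ∈ P, ¬ Irreducible (poly (fun i => (x i : ZMod l)))}.ncard : ℕ) : ℝ) ≤
      (1 - δ) ^ P.card * (Kc G * VV G q) := by
  have h4 := crt_le h3 (ι := Fin G) P hP (fun l => {x | ¬ Irreducible (poly x)})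
    (fun i : Fin G => (4 : ℝ) ^ G * Real.sqrt q ^ (i.val + 1)) (fun i => by positivity) δ
    (fun l hl => by
      rw [Fintype.card_fin]
      exact hirr l hl)
  have h5 : {x ∈ RW G q | ∀ l ∈ P, ¬ Irreducible (poly (fun i => (x i : ZMod l)))}.ncard ≤
      {x : Fin G → ℤ | (∀ i, |(x i : ℝ)| ≤ (4 : ℝ) ^ G * Real.sqrt q ^ (i.val + 1)) ∧
        ∀ l ∈ P, (fun i => (x i : ZMod l)) ∈ {x : Fin G → ZMod l | ¬ Irreducible (poly x)}}.ncard :=
    Set.ncard_le_ncard (fun b hb => ⟨h2 G q b hb.1, hb.2⟩)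
      ((finite_box (fun i : Fin G => (4 : ℝ) ^ G * Real.sqrt q ^ (i.val + 1))).subset
        (fun b hb => hb.1))
  have h6 : (({x ∈ RW G q | ∀ l ∈ P, ¬ Irreducible (poly (fun i => (x i : ZMod l)))}.ncard : ℕ) : ℝ)
      ≤ (({x : Fin G → ℤ | (∀ i, |(x i : ℝ)| ≤ (4 : ℝ) ^ G * Real.sqrt q ^ (i.val + 1)) ∧
        ∀ l ∈ P, (fun i => (x i : ZMod l)) ∈
          {x : Fin G → ZMod l | ¬ Irreducible (poly x)}}.ncard : ℕ) : ℝ) := by
    exact_mod_cast h5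
  have hQ0 : (0 : ℝ) ≤ ∏ l ∈ P, (l : ℝ) := prod_nonneg fun l _ => Nat.cast_nonneg l
  exact (h6.trans h4).trans (mul_le_mul_of_nonneg_left (prod_le G q _ hQ0 hQ)
    (pow_nonneg (by linarith) _))

/-- supersingular members -/
def SS (G q : ℕ) : Set (Fin G → ℤ) :=
  {b | G = 1 ∧ IsRealWeil q b ∧ ∃ α : QBar,
    aeval α (weil q b) = 0 ∧ ∃ N : ℕ, 0 < N ∧ (α ^ 2) ^ N = (q : QBar) ^ N}

theorem bad3 (h10 : T_ONE) (G q : ℕ) (hq : 0 < q) (hq1 : 1 ≤ Real.sqrt q) :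
    (((SS G q).ncard : ℕ) : ℝ) ≤ 9 / Real.sqrt q * (Kc G * VV G q) := by
  have hs : 0 < Real.sqrt q := by linarith
  by_cases hG : G = 1
  · subst hG
    have h1 : (SS 1 q).ncard ≤ 9 := by
      have e : SS 1 q = {b : Fin 1 → ℤ | IsRealWeil q b ∧ ∃ α : QBar,
          aeval α (weil q b) = 0 ∧ ∃ N : ℕ, 0 < N ∧ (α ^ 2) ^ N = (q : QBar) ^ N} := by
        ext b
        exact ⟨fun h => h.2, fun h => ⟨rfl, h⟩⟩
      rw [e]
      exact h10 q hq
    have h2 : VV 1 q = Real.sqrt q := by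
      unfold VV
      simp
    have h3 : (((SS 1 q).ncard : ℕ) : ℝ) ≤ 9 := by exact_mod_cast h1
    have h4 := Kc_one_le 1
    rw [h2]
    calc (((SS 1 q).ncard : ℕ) : ℝ) ≤ 9 * 1 := by linarith
      _ ≤ 9 * Kc 1 := by linarith
      _ = 9 / Real.sqrt q * (Kc 1 * Real.sqrt q) := by field_simp
  · have e : SS G q = ∅ := by
      ext b
      simp only [SS, Set.mem_ofPred_eq, Set.mem_empty_iff_false, iff_false]
      exact fun h => hG h.1
    rw [e, Set.ncard_empty, Nat.cast_zero]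
    have h4 := Kc_one_le G
    have h5 := (VV_pos G q hq1).le
    positivity

/-- infinitely many primes beyond a bound -/
theorem exists_primes (M n : ℕ) : ∃ P : Finset ℕ, (∀ l ∈ P, l.Prime ∧ M ≤ l) ∧ P.card = n := by
  have h1 : ({p : ℕ | p.Prime} \ {p | p < M}).Infinite :=
    Nat.infinite_setOfPred_prime.sdiff (Set.finite_lt_nat M)
  obtain ⟨P, hP, hc⟩ := h1.exists_subset_card_eq n
  exact ⟨P, fun l hl => ⟨(hP hl).1, not_lt.1 (hP hl).2⟩, hc⟩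

/-- the powers are eventually small, for finitely many bases -/
theorem exists_pow {r : ℕ} (δ : Fin r → ℝ) (h0 : ∀ j, 0 < δ j) (h1 : ∀ j, δ j ≤ 1) (η : ℝ)
    (hη : 0 < η) : ∃ k : ℕ, ∀ j, (1 - δ j) ^ k ≤ η := by
  have h2 : ∀ᶠ k : ℕ in Filter.atTop, ∀ j, (1 - δ j) ^ k ≤ η := by
    rw [Filter.eventually_all]
    intro j
    have h3 := tendsto_pow_atTop_nhds_zero_of_lt_one (r := 1 - δ j) (by linarith [h1 j])
      (by linarith [h0 j])
    exact (h3.eventually (eventually_lt_nhds hη)).mono fun k hk => hk.le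
  exact h2.exists

/-- the outcome of the algebra: a tuple without exceptions is good -/
theorem good_of (h6 : T_FROB) (h7 : T_TRANS) (h8 : T_CONJ) (h9 : T_ROU) (h11 : T_IRR)
    (h12 : T_FIN) {r : ℕ} (g : Fin r → ℕ) (hg : ∀ j, 1 ≤ g j) (q : ℕ) (hq : 0 < q)
    (P : Finset ℕ) (hP : ∀ l ∈ P, l.Prime ∧ 3 ≤ l ∧ ¬ l ∣ q) (b : ∀ j, Fin (g j) → ℤ)
    (hb : b ∈ Tuples g q) (hb1 : ∀ j, ∃ l ∈ P, Pattern l q j (red l b))
    (hb2 : ∀ j, ∃ l ∈ P, Irreducible (poly (fun i => (b j i : ZMod l))))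
    (hb3 : ∀ j, b j ∉ SS (g j) q) : Good q b := by
  have hflip : ∀ (j : Fin r) (y : QBar), aeval y (poly (b j)) = 0 → HasFlip q b j y := by
    intro j y hy
    obtain ⟨l, hl, hpat⟩ := hb1 j
    obtain ⟨y₀, hy₀⟩ := h6 r g q b j l (hP l hl).1 (hP l hl).2.1 (hP l hl).2.2 hpat
    obtain ⟨l', hl', hirr⟩ := hb2 j
    exact h8 r g q b j y₀ y hy₀ ((h7 (g j) (hg j) (b j) l' (hP l' hl').1 hirr).2 y₀ y hy₀.1 hy)
  have hirr : ∀ j, Irreducible (weil q (b j)) := by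
    intro j
    obtain ⟨l', hl', hirr⟩ := hb2 j
    exact h11 r g q hq b j (hg j) (h7 (g j) (hg j) (b j) l' (hP l' hl').1 hirr).1 (hflip j)
  refine h12 r g q hq b hirr hflip ?_
  intro j α hα N hN h
  by_cases h2 : 2 ≤ g j
  · exact h9 r g q hq b j h2 (hirr j) (hflip j) α hα N hN h
  · have h1 := hg j
    exact hb3 j ⟨by omega, hb j, α, hα, N, hN, h⟩

end MAIN_

open MAIN_

/-- MAIN -/
theorem p_MAIN (h1 : T_LOWER) (h2 : T_UPPER) (h3 : T_CRTB) (h4 : T_PAT) (h5 : T_IRRD)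
    (h6 : T_FROB) (h7 : T_TRANS) (h8 : T_CONJ) (h9 : T_ROU) (h10 : T_ONE) (h11 : T_IRR)
    (h12 : T_FIN) : T_MAIN := by
  classical
  intro r g hg ε hε
  choose c hc0 qc hc using h1
  choose δ1 hδ10 hδ11 L1 hL1 using h4 r g hg
  choose δ2 hδ20 hδ21 L2 hL2 using fun j => h5 (g j) (hg j)
  -- constants
  set cc : ℝ := ∏ j, c (g j) with hcc
  have hcc0 : 0 < cc := prod_pos fun j _ => hc0 _
  set C' : ℝ := ∏ j, Kc (g j) with hC'
  have hC'0 : 0 < C' := prod_pos fun j _ => lt_of_lt_of_le one_pos (Kc_one_le _)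
  set η : ℝ := ε * cc / (4 * (r + 1) * C') with hη
  have hη0 : 0 < η := by positivity
  obtain ⟨k1, hk1⟩ := exists_pow δ1 hδ10 hδ11 η hη0
  obtain ⟨k2, hk2⟩ := exists_pow δ2 hδ20 hδ21 η hη0
  obtain ⟨P0, hP0, hP0c⟩ := exists_primes (∑ j, (L1 j + L2 j) + 3) (k1 + k2 + 1)
  have hL1le : ∀ j, L1 j ≤ ∑ j, (L1 j + L2 j) := fun j =>
    le_trans (Nat.le_add_right _ _) (single_le_sum (f := fun j => L1 j + L2 j)
      (fun i _ => Nat.zero_le _) (mem_univ j))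
  have hL2le : ∀ j, L2 j ≤ ∑ j, (L1 j + L2 j) := fun j =>
    le_trans (Nat.le_add_left _ _) (single_le_sum (f := fun j => L1 j + L2 j)
      (fun i _ => Nat.zero_le _) (mem_univ j))
  set Q0 : ℝ := ∏ l ∈ P0, (l : ℝ) with hQ0
  have hQ01 : 1 ≤ Q0 := by
    have h13 : 1 ≤ ∏ l ∈ P0, l := Nat.succ_le_of_lt (prod_pos fun l hl => (hP0 l hl).1.pos)
    rw [hQ0, ← Nat.cast_prod]
    exact_mod_cast h13
  -- the threshold
  obtain ⟨qs, hqs⟩ : ∃ qs : ℕ, ∀ q : ℕ, qs ≤ q → 1 + Q0 ≤ Real.sqrt q ∧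
      9 / Real.sqrt q ≤ 2 * η := by
    obtain ⟨N, hN⟩ := exists_nat_ge ((1 + Q0 + 9 / (2 * η)) ^ 2)
    refine ⟨N, fun q hq => ?_⟩
    have h13 : (1 + Q0 + 9 / (2 * η)) ^ 2 ≤ (q : ℝ) := hN.trans (by exact_mod_cast hq)
    have h14 : 0 ≤ 9 / (2 * η) := by positivity
    have h15 : 1 + Q0 + 9 / (2 * η) ≤ Real.sqrt q := Real.le_sqrt_of_sq_le h13
    refine ⟨by linarith, ?_⟩
    have h16 : 0 < Real.sqrt q := by linarith
    have h17 : 9 / (2 * η) ≤ Real.sqrt q := by linarith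
    rw [div_le_iff₀ h16]
    rw [div_le_iff₀ (by positivity)] at h17
    linarith
  refine ⟨qs + ∑ j, qc (g j) + 1, ?_⟩
  intro p a q hp hqpa hq
  have hqpos : 0 < q := by omega
  obtain ⟨hs1, hs2⟩ := hqs q (by omega)
  have hs3 : 2 ≤ Real.sqrt q := by linarith
  have hs4 : 1 ≤ Real.sqrt q := by linarith
  have hqc : ∀ j, qc (g j) ≤ q := by
    intro j
    have : qc (g j) ≤ ∑ j, qc (g j) :=
      single_le_sum (f := fun j => qc (g j)) (fun i _ => Nat.zero_le _) (mem_univ j)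
    omega
  -- the number of tuples
  obtain ⟨hTf, hTc⟩ := ncard_pi (fun j => RW (g j) q) (fun j => finite_RW h2 _ q)
  have hT : {b : ∀ j, Fin (g j) → ℤ | ∀ j, b j ∈ RW (g j) q} = Tuples g q := rfl
  rw [hT] at hTf hTc
  set V : ℝ := ∏ j, VV (g j) q with hV
  have hV0 : 0 < V := prod_pos fun j _ => VV_pos _ q hs4
  have hlow : cc * V ≤ (((Tuples g q).ncard : ℕ) : ℝ) := by
    rw [hTc, hcc, hV, ← prod_mul_distrib]
    push_cast
    refine prod_le_prod (fun j _ => mul_nonneg (hc0 _).le (VV_pos _ q hs4).le) fun j _ => ?_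
    exact hc (g j) q (hqc j)
  have hpos : (0 : ℝ) < (((Tuples g q).ncard : ℕ) : ℝ) :=
    lt_of_lt_of_le (mul_pos hcc0 hV0) hlow
  refine ⟨hTf, by exact_mod_cast hpos, ?_⟩
  -- the primes
  set P : Finset ℕ := P0.erase p with hPdef
  have hPsub : P ⊆ P0 := erase_subset _ _
  have hPcard : k1 + k2 ≤ P.card := by
    have h13 : P0.card - 1 ≤ P.card := pred_card_le_card_erase
    omega
  have hPdvd : ∀ l ∈ P, ¬ l ∣ q := by
    intro l hl hdvd
    rw [hqpa] at hdvd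
    have h13 := (hP0 l (hPsub hl)).1.dvd_of_dvd_pow hdvd
    have h14 := (Nat.prime_dvd_prime_iff_eq (hP0 l (hPsub hl)).1 hp).1 h13
    exact (ne_of_mem_erase hl) h14
  have hPQ : 1 + ∏ l ∈ P, (l : ℝ) ≤ Real.sqrt q := by
    have h13 : ∏ l ∈ P, (l : ℝ) ≤ Q0 := by
      have h14 : ∏ l ∈ P, l ≤ ∏ l ∈ P0, l := by
        refine prod_le_prod_of_subset_of_one_le' hPsub ?_
        intro l hl _
        exact (hP0 l hl).1.one_le
      rw [hQ0, ← Nat.cast_prod, ← Nat.cast_prod]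
      exact_mod_cast h14
    linarith
  have hpr : ∀ l ∈ P, l.Prime := fun l hl => (hP0 l (hPsub hl)).1
  have hpow1 : ∀ j, (1 - δ1 j) ^ P.card ≤ η := fun j =>
    (pow_le_pow_of_le_one (by linarith [hδ11 j]) (by linarith [hδ10 j]) (by omega)).trans (hk1 j)
  have hpow2 : ∀ j, (1 - δ2 j) ^ P.card ≤ η := fun j =>
    (pow_le_pow_of_le_one (by linarith [hδ21 j]) (by linarith [hδ20 j]) (by omega)).trans (hk2 j)
  have hVV0 : ∀ i, 0 ≤ Kc (g i) * VV (g i) q := fun i =>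
    mul_nonneg (le_trans zero_le_one (Kc_one_le _)) (VV_pos _ q hs4).le
  have hCV : ∏ i, (Kc (g i) * VV (g i) q) = C' * V := by rw [prod_mul_distrib]
  -- the exceptions
  set B1 : Fin r → Set (∀ j, Fin (g j) → ℤ) :=
    fun j => {b ∈ Tuples g q | ∀ l ∈ P, ¬ Pattern l q j (red l b)} with hB1
  set B2 : Fin r → Set (∀ j, Fin (g j) → ℤ) :=
    fun j => {b ∈ Tuples g q | b j ∈ {x ∈ RW (g j) q |
      ∀ l ∈ P, ¬ Irreducible (poly (fun i => (x i : ZMod l)))}} with hB2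
  set B3 : Fin r → Set (∀ j, Fin (g j) → ℤ) :=
    fun j => {b ∈ Tuples g q | b j ∈ SS (g j) q} with hB3
  have hB1f : ∀ j, (B1 j).Finite := fun j => hTf.subset fun b hb => hb.1
  have hB2f : ∀ j, (B2 j).Finite := fun j => hTf.subset fun b hb => hb.1
  have hB3f : ∀ j, (B3 j).Finite := fun j => hTf.subset fun b hb => hb.1
  have hn1 : ∀ j, (((B1 j).ncard : ℕ) : ℝ) ≤ η * (C' * V) := by
    intro j
    refine (bad1 h2 h3 g q j P hpr (δ1 j) (hδ11 j) (fun l hl => ?_) hPQ).trans ?_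
    · refine hL1 j l (hpr l hl) ?_ q (hPdvd l hl)
      have h13 := (hP0 l (hPsub hl)).2
      have h14 := hL1le j
      omega
    · rw [hCV]
      exact mul_le_mul_of_nonneg_right (hpow1 j) (mul_pos hC'0 hV0).le
  have hn2 : ∀ j, (((B2 j).ncard : ℕ) : ℝ) ≤ η * (C' * V) := by
    intro j
    rw [← hCV]
    refine one_cond h2 h3 g q hs3 j {x ∈ RW (g j) q |
      ∀ l ∈ P, ¬ Irreducible (poly (fun i => (x i : ZMod l)))} (fun x hx => hx.1) η ?_
    refine (bad2 h2 h3 (g j) q P hpr (δ2 j) (hδ21 j) (fun l hl => ?_) hPQ).trans ?_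
    · refine hL2 j l (hpr l hl) ?_
      have h13 := (hP0 l (hPsub hl)).2
      have h14 := hL2le j
      omega
    · exact mul_le_mul_of_nonneg_right (hpow2 j) (hVV0 j)
  have hn3 : ∀ j, (((B3 j).ncard : ℕ) : ℝ) ≤ (2 * η) * (C' * V) := by
    intro j
    rw [← hCV]
    refine one_cond h2 h3 g q hs3 j (SS (g j) q) (fun x hx => hx.2.1) (2 * η) ?_
    exact (bad3 h10 (g j) q hqpos hs4).trans (mul_le_mul_of_nonneg_right hs2 (hVV0 j))
  -- the union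
  have hsub : {b ∈ Tuples g q | ¬ Good q b} ⊆
      ((univ.biUnion fun j => (hB1f j).toFinset ∪ (hB2f j).toFinset ∪ (hB3f j).toFinset :
        Finset (∀ j, Fin (g j) → ℤ)) : Set (∀ j, Fin (g j) → ℤ)) := by
    rintro b ⟨hbT, hbG⟩
    by_contra hnot
    apply hbG
    have hnot' : ∀ j, b ∉ B1 j ∧ b ∉ B2 j ∧ b ∉ B3 j := by
      intro j
      refine ⟨fun h => hnot ?_, fun h => hnot ?_, fun h => hnot ?_⟩
      · exact mem_coe.2 (mem_biUnion.2 ⟨j, mem_univ j,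
          mem_union_left _ (mem_union_left _ ((hB1f j).mem_toFinset.2 h))⟩)
      · exact mem_coe.2 (mem_biUnion.2 ⟨j, mem_univ j,
          mem_union_left _ (mem_union_right _ ((hB2f j).mem_toFinset.2 h))⟩)
      · exact mem_coe.2 (mem_biUnion.2 ⟨j, mem_univ j,
          mem_union_right _ ((hB3f j).mem_toFinset.2 h)⟩)
    refine good_of h6 h7 h8 h9 h11 h12 g hg q hqpos P (fun l hl => ⟨hpr l hl, ?_, hPdvd l hl⟩) b
      hbT (fun j => ?_) (fun j => ?_) (fun j => ?_)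
    · have := (hP0 l (hPsub hl)).2
      omega
    · by_contra hne
      push Not at hne
      exact (hnot' j).1 ⟨hbT, hne⟩
    · by_contra hne
      push Not at hne
      exact (hnot' j).2.1 ⟨hbT, hbT j, hne⟩
    · exact fun h => (hnot' j).2.2 ⟨hbT, h⟩
  have hle : {b ∈ Tuples g q | ¬ Good q b}.ncard ≤
      ∑ j, ((B1 j).ncard + (B2 j).ncard + (B3 j).ncard) := by
    refine (Set.ncard_le_ncard hsub (Finset.finite_toSet _)).trans ?_
    rw [Set.ncard_coe_finset]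
    refine card_biUnion_le.trans (sum_le_sum fun j _ => ?_)
    refine (card_union_le _ _).trans ?_
    rw [Set.ncard_eq_toFinset_card _ (hB1f j), Set.ncard_eq_toFinset_card _ (hB2f j),
      Set.ncard_eq_toFinset_card _ (hB3f j)]
    exact Nat.add_le_add_right (card_union_le _ _) _
  have hle2 : (({b ∈ Tuples g q | ¬ Good q b}.ncard : ℕ) : ℝ) ≤ r * (4 * η * (C' * V)) := by
    have h13 : (({b ∈ Tuples g q | ¬ Good q b}.ncard : ℕ) : ℝ) ≤
        ∑ j, ((((B1 j).ncard : ℕ) : ℝ) + (((B2 j).ncard : ℕ) : ℝ) + (((B3 j).ncard : ℕ) : ℝ)) := by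
      exact_mod_cast hle
    refine h13.trans ?_
    calc ∑ j, ((((B1 j).ncard : ℕ) : ℝ) + (((B2 j).ncard : ℕ) : ℝ) + (((B3 j).ncard : ℕ) : ℝ))
        ≤ ∑ _j : Fin r, (4 * η * (C' * V)) := by
          refine sum_le_sum fun j _ => ?_
          linarith [hn1 j, hn2 j, hn3 j]
      _ = r * (4 * η * (C' * V)) := by
          rw [sum_const, card_univ, Fintype.card_fin, nsmul_eq_mul]
  refine hle2.trans ?_
  have h13 : (r : ℝ) * (4 * η * (C' * V)) ≤ ε * (cc * V) := by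
    have h14 : (4 : ℝ) * η * C' * (r + 1) = ε * cc := by
      rw [hη]
      field_simp
    have h15 : 0 ≤ 4 * η * (C' * V) := by positivity
    calc (r : ℝ) * (4 * η * (C' * V)) ≤ (r + 1) * (4 * η * (C' * V)) := by nlinarith
      _ = (4 * η * C' * (r + 1)) * V := by ring
      _ = ε * (cc * V) := by rw [h14]; ring
  exact h13.trans (mul_le_mul_of_nonneg_left hlow hε.le)

end Pool.Agent.AWP
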