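import Pool.Agent.AWP.Targets

set_option autoImplicit false

namespace Pool.Agent.AWP

open Polynomial Finset
open Pool.Agent.CMT (QBar)

namespace ONE_

/-- the value list -/
noncomputable def vals (q : ℕ) : List ℤ :=
  [0, (Nat.sqrt q : ℤ), -(Nat.sqrt q : ℤ), (Nat.sqrt (2 * q) : ℤ), -(Nat.sqrt (2 * q) : ℤ),
    (Nat.sqrt (3 * q) : ℤ), -(Nat.sqrt (3 * q) : ℤ), (Nat.sqrt (4 * q) : ℤ),
    -(Nat.sqrt (4 * q) : ℤ)]

theorem sqrt_eq (B : ℤ) (m : ℕ) (h : B ^ 2 = (m : ℤ)) :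
    B = (Nat.sqrt m : ℤ) ∨ B = -(Nat.sqrt m : ℤ) := by
  have h1 : B.natAbs * B.natAbs = m := by
    have : ((B.natAbs * B.natAbs : ℕ) : ℤ) = (m : ℤ) := by
      rw [Int.natAbs_mul_self, ← h]; ring
    exact_mod_cast this
  have h2 : Nat.sqrt m = B.natAbs := by rw [← h1, Nat.sqrt_eq]
  rw [h2]
  exact Int.natAbs_eq B

theorem mem_vals (q : ℕ) (B k : ℤ) (h0 : 0 ≤ k) (h4 : k ≤ 4) (h : B ^ 2 = k * q) :
    B ∈ vals q := by
  have hk : k = 0 ∨ k = 1 ∨ k = 2 ∨ k = 3 ∨ k = 4 := by omega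
  unfold vals
  rcases hk with rfl | rfl | rfl | rfl | rfl
  · have : B = 0 := by
      have : B ^ 2 = 0 := by rw [h]; ring
      exact pow_eq_zero_iff (two_ne_zero) |>.1 this
    simp [this]
  · rcases sqrt_eq B q (by rw [h]; ring) with h | h <;> simp [← h]
  · rcases sqrt_eq B (2 * q) (by rw [h]; push_cast; ring) with h | h <;> simp [← h]
  · rcases sqrt_eq B (3 * q) (by rw [h]; push_cast; ring) with h | h <;> simp [← h]
  · rcases sqrt_eq B (4 * q) (by rw [h]; push_cast; ring) with h | h <;> simp [← h]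

/-- integrality -/
theorem int_of (q : ℕ) (hq : 0 < q) (B : ℤ) (α : QBar) (h : α ^ 2 + q + B * α = 0)
    (N : ℕ) (hN : 0 < N) (hα : (α ^ 2) ^ N = (q : QBar) ^ N) : ∃ k : ℤ, B ^ 2 = k * q := by
  have hq0 : (q : QBar) ≠ 0 := by exact_mod_cast hq.ne'
  have hα0 : α ≠ 0 := by
    rintro rfl
    apply pow_ne_zero N hq0
    rw [← hα]
    rw [zero_pow two_ne_zero, zero_pow hN.ne']
  set ζ : QBar := α ^ 2 / q with hζ
  have hζN : ζ ^ N = 1 := by
    rw [hζ, div_pow, hα, div_self (pow_ne_zero N hq0)]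
  have hζ0 : ζ ≠ 0 := div_ne_zero (pow_ne_zero 2 hα0) hq0
  have hint : IsIntegral ℤ ζ := by
    refine ⟨X ^ N - 1, monic_X_pow_sub_C 1 hN.ne', ?_⟩
    simp [hζN]
  have hint' : IsIntegral ℤ (ζ⁻¹) := by
    refine ⟨X ^ N - 1, monic_X_pow_sub_C 1 hN.ne', ?_⟩
    simp [inv_pow, hζN]
  have hsum : IsIntegral ℤ (ζ + ζ⁻¹ + 2) := by
    have h2 : IsIntegral ℤ (2 : QBar) := by
      have := isIntegral_algebraMap (R := ℤ) (A := QBar) (x := 2)
      simpa using this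
    exact (hint.add hint').add h2
  have heq : ζ + ζ⁻¹ + 2 = algebraMap ℚ QBar ((B : ℚ) ^ 2 / q) := by
    have hB : (B : QBar) ^ 2 * α ^ 2 = (α ^ 2 + q) ^ 2 := by
      have : (B : QBar) * α = -(α ^ 2 + q) := by linear_combination h
      calc (B : QBar) ^ 2 * α ^ 2 = ((B : QBar) * α) ^ 2 := by ring
        _ = (α ^ 2 + q) ^ 2 := by rw [this]; ring
    have h1 : algebraMap ℚ QBar ((B : ℚ) ^ 2 / q) = (B : QBar) ^ 2 / q := by
      simp
    rw [h1, hζ]
    field_simp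
    linear_combination -hB
  rw [heq] at hsum
  have hsum2 : IsIntegral ℤ ((B : ℚ) ^ 2 / q) := by
    refine (isIntegral_algebraMap_iff (R := ℤ) (A := ℚ) (B := QBar) ?_).1 hsum
    exact (algebraMap ℚ QBar).injective
  obtain ⟨k, hk⟩ := IsIntegrallyClosed.isIntegral_iff.1 hsum2
  refine ⟨k, ?_⟩
  have hq1 : (q : ℚ) ≠ 0 := by exact_mod_cast hq.ne'
  have : (B : ℚ) ^ 2 = k * q := by
    rw [eq_div_iff hq1] at hk
    rw [← hk]; simp
  exact_mod_cast this

theorem bound (q : ℕ) (b : Fin 1 → ℤ) (h : IsRealWeil q b) : (b 0) ^ 2 ≤ 4 * (q : ℤ) := by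
  obtain ⟨y, hy, hy2⟩ := h (-(b 0 : ℂ)) (by simp [poly])
  have : y = -(b 0 : ℝ) := by
    have h3 : ((-(b 0 : ℝ) : ℝ) : ℂ) = (y : ℂ) := by rw [← hy]; push_cast; ring
    exact (Complex.ofReal_injective h3).symm
  rw [this] at hy2
  have h4 : ((b 0 : ℝ)) ^ 2 ≤ 4 * (q : ℝ) := by nlinarith [hy2]
  exact_mod_cast h4

end ONE_

open ONE_ in
theorem p_ONE : T_ONE := by
  intro q hq
  classical
  have hsub : {b : Fin 1 → ℤ | IsRealWeil q b ∧ ∃ α : QBar,
      aeval α (weil q b) = 0 ∧ ∃ N : ℕ, 0 < N ∧ (α ^ 2) ^ N = (q : QBar) ^ N} ⊆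
      (((vals q).toFinset.image (fun B : ℤ => (fun _ : Fin 1 => B)) : Finset (Fin 1 → ℤ)) :
        Set (Fin 1 → ℤ)) := by
    rintro b ⟨hb, α, hα, N, hN, hαN⟩
    have h1 : α ^ 2 + q + (b 0 : QBar) * α = 0 := by
      have : aeval α (weil q b) = α ^ 2 + q + (b 0 : QBar) * α := by
        simp [weil]
      rw [← this, hα]
    obtain ⟨k, hk⟩ := int_of q hq (b 0) α h1 N hN hαN
    have hbd := bound q b hb
    have hq' : (0 : ℤ) < q := by exact_mod_cast hq
    have hk0 : 0 ≤ k := by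
      by_contra hlt
      push Not at hlt
      nlinarith [sq_nonneg (b 0)]
    have hk4 : k ≤ 4 := by
      by_contra hlt
      push Not at hlt
      nlinarith
    have hmem := mem_vals q (b 0) k hk0 hk4 hk
    simp only [coe_image, Set.mem_image, mem_coe, List.mem_toFinset]
    refine ⟨b 0, hmem, ?_⟩
    funext i
    rw [Subsingleton.elim i 0]
  calc _ ≤ (((vals q).toFinset.image (fun B : ℤ => (fun _ : Fin 1 => B)) :
        Finset (Fin 1 → ℤ)) : Set (Fin 1 → ℤ)).ncard := Set.ncard_le_ncard hsub (Finset.finite_toSet _)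
    _ = ((vals q).toFinset.image (fun B : ℤ => (fun _ : Fin 1 => B))).card :=
        Set.ncard_coe_finset _
    _ ≤ (vals q).toFinset.card := Finset.card_image_le
    _ ≤ (vals q).length := List.toFinset_card_le _
    _ = 9 := rfl

end Pool.Agent.AWP
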