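import Pool.Agent.AWP.Targets

set_option autoImplicit false

/-!
# The pattern occurs for a positive proportion of the residue classes
-/

namespace Pool.Agent.AWP.PAT_

open Polynomial Finset
open scoped BigOperators Classical

section Field

variable {l : ℕ} [Fact l.Prime]

lemma ringChar_ne (hl : l ≠ 2) : ringChar (ZMod l) ≠ 2 := by
  rw [ZMod.ringChar_zmod_n]; exact hl

lemma two_ne (hl : l ≠ 2) : (2 : ZMod l) ≠ 0 :=
  Ring.two_ne_zero (ringChar_ne hl)

/-- the number of points of the conic `y ^ 2 - w ^ 2 = c` -/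
lemma card_conic (hl : l ≠ 2) (c : ZMod l) (hc : c ≠ 0) :
    Fintype.card {p : ZMod l × ZMod l // p.2 ^ 2 = p.1 ^ 2 - c} = l - 1 := by
  have h2 := two_ne hl
  have e : {p : ZMod l × ZMod l // p.2 ^ 2 = p.1 ^ 2 - c} ≃ (ZMod l)ˣ :=
    { toFun := fun p => Units.mk0 (p.1.1 + p.1.2) (by
        intro h
        apply hc
        have := p.2
        have h3 : c = (p.1.1 + p.1.2) * (p.1.1 - p.1.2) := by
          have h4 : c = p.1.1 ^ 2 - p.1.2 ^ 2 := by rw [this]; ring
          linear_combination h4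
        rw [h3, h, zero_mul])
      invFun := fun u => ⟨(((u : ZMod l) + c * (u : ZMod l)⁻¹) / 2,
        ((u : ZMod l) - c * (u : ZMod l)⁻¹) / 2), by
          have hu : (u : ZMod l) ≠ 0 := u.ne_zero
          field_simp
          ring⟩
      left_inv := by
        rintro ⟨⟨y, w⟩, hp⟩
        simp only at hp
        have h4 : c = (y + w) * (y - w) := by
          have h5 : c = y ^ 2 - w ^ 2 := by rw [hp]; ring
          rw [h5]; ring
        have h6 : y + w ≠ 0 := by
          intro h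
          apply hc
          rw [h4, h, zero_mul]
        apply Subtype.ext
        simp only [Units.val_mk0]
        rw [h4]
        apply Prod.ext
        · simp only
          field_simp
          ring
        · simp only
          field_simp
          ring
      right_inv := by
        intro u
        have hu : (u : ZMod l) ≠ 0 := u.ne_zero
        apply Units.ext
        simp only [Units.val_mk0]
        field_simp
        ring }
  rw [Fintype.card_congr e, ZMod.card_units]

lemma sum_char (hl : l ≠ 2) (c : ZMod l) (hc : c ≠ 0) :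
    ∑ y : ZMod l, quadraticChar (ZMod l) (y ^ 2 - c) = -1 := by
  have h1 := card_conic hl c hc
  have h2 : (Fintype.card {p : ZMod l × ZMod l // p.2 ^ 2 = p.1 ^ 2 - c} : ℤ) =
      ∑ y : ZMod l, (quadraticChar (ZMod l) (y ^ 2 - c) + 1) := by
    rw [Fintype.card_subtype, Finset.card_filter]
    push_cast
    rw [← Finset.univ_product_univ, Finset.sum_product]
    apply Finset.sum_congr rfl
    intro y _
    rw [← quadraticChar_card_sqrts (ringChar_ne hl)]
    have h3 : {x : ZMod l | x ^ 2 = y ^ 2 - c}.toFinset =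
        univ.filter (fun w : ZMod l => w ^ 2 = y ^ 2 - c) := by
      ext w
      simp
    rw [h3, Finset.card_filter]
    push_cast
    rfl
  rw [h1, Finset.sum_add_distrib] at h2
  simp only [Finset.sum_const, Finset.card_univ, ZMod.card, nsmul_eq_mul, mul_one] at h2
  have hp : 1 ≤ l := (Fact.out : l.Prime).one_lt.le
  rw [Nat.cast_sub hp] at h2
  push_cast at h2
  linarith

/-- values with a nonzero square -/
noncomputable def Sp (c : ZMod l) : Finset (ZMod l) :=
  univ.filter (fun y => IsSquare (y ^ 2 - c) ∧ y ^ 2 - c ≠ 0)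

/-- values with a nonsquare -/
noncomputable def Ns (c : ZMod l) : Finset (ZMod l) :=
  univ.filter (fun y => ¬ IsSquare (y ^ 2 - c))

/-- values with zero -/
noncomputable def Zr (c : ZMod l) : Finset (ZMod l) :=
  univ.filter (fun y => y ^ 2 - c = 0)

lemma card_Zr (c : ZMod l) : (Zr c).card ≤ 2 := by
  have h : Zr c ⊆ (X ^ 2 - C c : (ZMod l)[X]).roots.toFinset := by
    intro y hy
    rw [Zr, Finset.mem_filter] at hy
    rw [Multiset.mem_toFinset, mem_roots]
    · simp only [IsRoot.def, eval_sub, eval_pow, eval_X, eval_C]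
      exact hy.2
    · exact X_pow_sub_C_ne_zero (by norm_num) c
  calc (Zr c).card ≤ _ := Finset.card_le_card h
    _ ≤ Multiset.card (X ^ 2 - C c : (ZMod l)[X]).roots := Multiset.toFinset_card_le _
    _ ≤ (X ^ 2 - C c : (ZMod l)[X]).natDegree := card_roots' _
    _ = 2 := natDegree_X_pow_sub_C

lemma counts (hl : l ≠ 2) (c : ZMod l) (hc : c ≠ 0) :
    l ≤ 2 * (Sp c).card + 3 ∧ l ≤ 2 * (Ns c).card + 1 := by
  have h1 := sum_char hl c hc
  have h2 : ∀ y : ZMod l, quadraticChar (ZMod l) (y ^ 2 - c) =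
      (if IsSquare (y ^ 2 - c) ∧ y ^ 2 - c ≠ 0 then 1 else 0) -
        (if ¬ IsSquare (y ^ 2 - c) then 1 else 0) := by
    intro y
    by_cases h0 : y ^ 2 - c = 0
    · rw [h0]
      simp
    · by_cases hs : IsSquare (y ^ 2 - c)
      · rw [if_pos ⟨hs, h0⟩, if_neg (by simpa using hs)]
        rw [(quadraticChar_one_iff_isSquare h0).2 hs]
        norm_num
      · rw [if_neg (fun h => hs h.1), if_pos hs]
        rw [quadraticChar_neg_one_iff_not_isSquare.2 hs]
        norm_num
  have h3 : ∀ y : ZMod l, (1 : ℤ) =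
      (if IsSquare (y ^ 2 - c) ∧ y ^ 2 - c ≠ 0 then 1 else 0) +
        (if ¬ IsSquare (y ^ 2 - c) then 1 else 0) + (if y ^ 2 - c = 0 then 1 else 0) := by
    intro y
    by_cases h0 : y ^ 2 - c = 0
    · rw [h0]
      simp
    · by_cases hs : IsSquare (y ^ 2 - c)
      · rw [if_pos ⟨hs, h0⟩, if_neg (by simpa using hs), if_neg h0]
        norm_num
      · rw [if_neg (fun h => hs h.1), if_pos hs, if_neg h0]
        norm_num
  have h4 : ((Sp c).card : ℤ) - (Ns c).card = -1 := by
    rw [← h1, Finset.sum_congr rfl (fun y _ => h2 y), Finset.sum_sub_distrib, Sp, Ns,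
      Finset.card_filter, Finset.card_filter]
    push_cast
    rfl
  have h5 : (l : ℤ) = (Sp c).card + (Ns c).card + (Zr c).card := by
    have : (l : ℤ) = ∑ y : ZMod l, (1 : ℤ) := by
      simp [ZMod.card]
    rw [this, Finset.sum_congr rfl (fun y _ => h3 y), Finset.sum_add_distrib,
      Finset.sum_add_distrib, Sp, Ns, Zr, Finset.card_filter, Finset.card_filter,
      Finset.card_filter]
    push_cast
    rfl
  have h6 := card_Zr c
  constructor <;> omega

end Field

/-! ## Monic polynomials and their coefficients -/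

section Poly

variable {R : Type} [CommRing R] [Nontrivial R]

omit [Nontrivial R] in
lemma poly_natDegree_lt {g : ℕ} (b : Fin g → R) :
    (∑ i : Fin g, C (b i) * X ^ (g - 1 - i.val) : R[X]).degree < (g : ℕ) := by
  refine lt_of_le_of_lt (degree_sum_le _ _) ?_
  refine (Finset.sup_lt_iff (WithBot.bot_lt_coe g)).2 ?_
  intro i _
  refine lt_of_le_of_lt (degree_C_mul_X_pow_le _ _) ?_
  have := i.2
  have h : g - 1 - i.val < g := by omega
  exact Nat.cast_lt.2 h

lemma poly_monic {g : ℕ} (b : Fin g → R) : (poly b).Monic :=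
  monic_X_pow_add (poly_natDegree_lt b)

lemma poly_natDegree {g : ℕ} (b : Fin g → R) : (poly b).natDegree = g := by
  have h : (poly b).degree = (g : ℕ) := by
    unfold poly
    rw [degree_add_eq_left_of_degree_lt]
    · exact degree_X_pow g
    · rw [degree_X_pow]; exact poly_natDegree_lt b
  exact natDegree_eq_of_degree_eq_some h

/-- the coefficients of a monic polynomial -/
noncomputable def coeffs (g : ℕ) (p : R[X]) : Fin g → R := fun i => p.coeff (g - 1 - i.val)

omit [Nontrivial R] in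
lemma poly_coeffs {g : ℕ} (p : R[X]) (hp : p.Monic) (hd : p.natDegree = g) :
    poly (coeffs g p) = p := by
  have h1 := hp.as_sum
  rw [hd] at h1
  unfold poly
  conv_rhs => rw [h1]
  congr 1
  rw [← Fin.sum_univ_eq_sum_range (fun i => C (p.coeff i) * X ^ i) g]
  refine Fintype.sum_equiv Fin.revPerm _ _ ?_
  intro i
  have : ((Fin.revPerm i : Fin g) : ℕ) = g - 1 - i.val := by
    simp only [Fin.revPerm_apply, Fin.val_rev]
    omega
  rw [this]
  rfl

end Poly

/-! ## The count -/

section Count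

variable {r : ℕ} (g : Fin r → ℕ)

/-- the index type -/
abbrev I : Type := Σ j, Fin (g j)

variable {l : ℕ} [Fact l.Prime]

/-- the choices of roots -/
noncomputable def V (c : ZMod l) (i₀ : I g) : Finset (I g → ZMod l) :=
  univ.filter (fun y => Function.Injective y ∧ y i₀ ∈ Ns c ∧ ∀ i, i ≠ i₀ → y i ∈ Sp c)

/-- from embeddings to choices of roots -/
noncomputable def ext (c : ZMod l) (i₀ : I g)
    (p : ({i : I g // i ≠ i₀} ↪ {y : ZMod l // y ∈ Sp c}) × {y : ZMod l // y ∈ Ns c}) :
    I g → ZMod l :=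
  fun i => if h : i = i₀ then p.2.1 else (p.1 ⟨i, h⟩).1

lemma Sp_Ns (c y : ZMod l) (h1 : y ∈ Sp c) (h2 : y ∈ Ns c) : False := by
  rw [Sp, Finset.mem_filter] at h1
  rw [Ns, Finset.mem_filter] at h2
  exact h2.2 h1.2.1

lemma ext_mem (c : ZMod l) (i₀ : I g)
    (p : ({i : I g // i ≠ i₀} ↪ {y : ZMod l // y ∈ Sp c}) × {y : ZMod l // y ∈ Ns c}) :
    ext g c i₀ p ∈ V g c i₀ := by
  rw [V, Finset.mem_filter]
  have h0 : ext g c i₀ p i₀ = p.2.1 := by simp [ext]
  have h1 : ∀ i (h : i ≠ i₀), ext g c i₀ p i = (p.1 ⟨i, h⟩).1 := by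
    intro i h
    simp [ext, h]
  refine ⟨Finset.mem_univ _, ?_, ?_, ?_⟩
  · intro a b hab
    by_cases ha : a = i₀
    · by_cases hb : b = i₀
      · rw [ha, hb]
      · exfalso
        rw [ha, h0, h1 b hb] at hab
        exact Sp_Ns c _ (p.1 ⟨b, hb⟩).2 (hab ▸ p.2.2)
    · by_cases hb : b = i₀
      · exfalso
        rw [hb, h0, h1 a ha] at hab
        exact Sp_Ns c _ (p.1 ⟨a, ha⟩).2 (hab.symm ▸ p.2.2)
      · rw [h1 a ha, h1 b hb] at hab
        have := p.1.injective (Subtype.ext hab)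
        exact congrArg Subtype.val this
  · rw [h0]; exact p.2.2
  · intro i hi
    rw [h1 i hi]
    exact (p.1 ⟨i, hi⟩).2

lemma ext_inj (c : ZMod l) (i₀ : I g) : Function.Injective (ext g c i₀) := by
  rintro ⟨e, n⟩ ⟨e', n'⟩ h
  apply Prod.ext
  · apply DFunLike.ext
    rintro ⟨i, hi⟩
    have := congrFun h i
    simp only [ext, hi, dif_neg, not_false_eq_true] at this
    exact Subtype.ext this
  · have := congrFun h i₀
    simp only [ext, dif_pos] at this
    exact Subtype.ext this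

lemma card_V (c : ZMod l) (i₀ : I g) :
    (Sp c).card.descFactorial (Fintype.card (I g) - 1) * (Ns c).card ≤ (V g c i₀).card := by
  have h1 : Fintype.card (({i : I g // i ≠ i₀} ↪ {y : ZMod l // y ∈ Sp c}) ×
      {y : ZMod l // y ∈ Ns c}) ≤ (V g c i₀).card := by
    rw [← Fintype.card_coe]
    exact Fintype.card_le_of_injective (fun p => (⟨ext g c i₀ p, ext_mem g c i₀ p⟩ :
      {x // x ∈ V g c i₀})) (fun p p' h => ext_inj g c i₀ (congrArg Subtype.val h))
  rw [Fintype.card_prod, Fintype.card_embedding_eq, Fintype.card_coe, Fintype.card_coe] at h1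
  have h2 : Fintype.card {i : I g // i ≠ i₀} = Fintype.card (I g) - 1 := by
    rw [Fintype.card_subtype_compl, Fintype.card_subtype_eq]
  rw [h2] at h1
  exact h1

lemma card_V_ge (hl : l ≠ 2) (c : ZMod l) (hc : c ≠ 0) (i₀ : I g)
    (hbig : 4 * Fintype.card (I g) + 10 ≤ l) :
    l ^ (Fintype.card (I g)) ≤ 4 ^ (Fintype.card (I g)) * (V g c i₀).card := by
  obtain ⟨h1, h2⟩ := counts hl c hc
  have h3 := card_V g c i₀
  have hG : 1 ≤ Fintype.card (I g) := Fintype.card_pos_iff.2 ⟨i₀⟩
  obtain ⟨m, hm⟩ : ∃ m, Fintype.card (I g) = m + 1 := ⟨_, (Nat.sub_add_cancel hG).symm⟩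
  rw [hm] at h3 hbig ⊢
  rw [Nat.add_sub_cancel] at h3
  have h4 : l ≤ 4 * ((Sp c).card + 1 - m) := by omega
  have h5 : l ≤ 4 * (Ns c).card := by omega
  calc l ^ (m + 1) = l ^ m * l := pow_succ _ _
    _ ≤ (4 * ((Sp c).card + 1 - m)) ^ m * (4 * (Ns c).card) :=
        Nat.mul_le_mul (Nat.pow_le_pow_left h4 m) h5
    _ = 4 ^ (m + 1) * (((Sp c).card + 1 - m) ^ m * (Ns c).card) := by
        rw [mul_pow, pow_succ]; ring
    _ ≤ 4 ^ (m + 1) * ((Sp c).card.descFactorial m * (Ns c).card) :=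
        Nat.mul_le_mul_left _ (Nat.mul_le_mul_right _ (Nat.pow_sub_le_descFactorial _ _))
    _ ≤ 4 ^ (m + 1) * (V g c i₀).card := Nat.mul_le_mul_left _ h3

/-- the coefficients of the polynomials with given roots -/
noncomputable def Phi (y : I g → ZMod l) : ∀ j, Fin (g j) → ZMod l :=
  fun j => coeffs (g j) (∏ k : Fin (g j), (X - C (y ⟨j, k⟩)))

lemma poly_Phi (y : I g → ZMod l) (j : Fin r) :
    poly (Phi g y j) = ∏ k : Fin (g j), (X - C (y ⟨j, k⟩)) := by
  apply poly_coeffs
  · exact monic_prod_of_monic _ _ (fun k _ => monic_X_sub_C _)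
  · rw [natDegree_prod_of_monic _ _ (fun k _ => monic_X_sub_C _)]
    simp

lemma fibre (x : ∀ j, Fin (g j) → ZMod l) (S : Finset (I g → ZMod l)) :
    (S.filter (fun y => Phi g y = x)).card ≤ ∏ i : I g, g i.1 := by
  have h : S.filter (fun y => Phi g y = x) ⊆
      Fintype.piFinset (fun i : I g => (poly (x i.1)).roots.toFinset) := by
    intro y hy
    rw [Finset.mem_filter] at hy
    rw [Fintype.mem_piFinset]
    rintro ⟨j, k⟩
    rw [Multiset.mem_toFinset, mem_roots (poly_monic _).ne_zero, IsRoot.def, ← hy.2, poly_Phi,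
      eval_prod]
    apply Finset.prod_eq_zero (Finset.mem_univ k)
    simp
  refine (Finset.card_le_card h).trans ?_
  rw [Fintype.card_piFinset]
  apply Finset.prod_le_prod'
  intro i _
  refine (Multiset.toFinset_card_le _).trans ((card_roots' _).trans ?_)
  rw [poly_natDegree]

lemma pattern_Phi (q : ℕ) (j : Fin r) (k₀ : Fin (g j)) (y : I g → ZMod l)
    (hy : y ∈ V g (4 * (q : ZMod l)) ⟨j, k₀⟩) : Pattern l q j (Phi g y) := by
  rw [V, Finset.mem_filter] at hy
  obtain ⟨_, h1, h2, h3⟩ := hy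
  refine ⟨fun i k => y ⟨i, k⟩, ?_, ?_, k₀, ?_, ?_⟩
  · intro i k k' hk
    have := h1 hk
    simpa using this
  · intro i
    exact poly_Phi g y i
  · rw [Ns, Finset.mem_filter] at h2
    exact h2.2
  · intro i k hik
    have := h3 ⟨i, k⟩ hik
    rw [Sp, Finset.mem_filter] at this
    exact this.2

lemma card_pattern (q : ℕ) (j : Fin r) (k₀ : Fin (g j)) :
    (V g (4 * (q : ZMod l)) ⟨j, k₀⟩).card ≤ (∏ i : I g, g i.1) *
      (univ.filter (fun x : ∀ j, Fin (g j) → ZMod l => Pattern l q j x)).card := by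
  refine (Finset.card_le_mul_card_image (f := Phi g) _ (∏ i : I g, g i.1)
    (fun a _ => fibre g a _)).trans ?_
  apply Nat.mul_le_mul_left
  apply Finset.card_le_card
  intro x hx
  rw [Finset.mem_image] at hx
  obtain ⟨y, hy, rfl⟩ := hx
  rw [Finset.mem_filter]
  exact ⟨Finset.mem_univ _, pattern_Phi g q j k₀ y hy⟩

lemma card_all : Fintype.card (∀ j, Fin (g j) → ZMod l) = l ^ Fintype.card (I g) := by
  rw [Fintype.card_pi, Fintype.card_sigma]
  simp only [Fintype.card_fun, ZMod.card, Fintype.card_fin]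
  rw [Finset.prod_pow_eq_pow_sum]

end Count

end Pool.Agent.AWP.PAT_

namespace Pool.Agent.AWP

open PAT_ Finset
open scoped Classical

theorem p_PAT : T_PAT := by
  intro r g hg j
  have hM : 0 < ∏ i : I g, g i.1 := Finset.prod_pos (fun i _ => hg i.1)
  obtain ⟨M, hMM⟩ : ∃ M, M = ∏ i : I g, g i.1 := ⟨_, rfl⟩
  rw [← hMM] at hM
  obtain ⟨G, hGG⟩ : ∃ G, G = Fintype.card (I g) := ⟨_, rfl⟩
  refine ⟨1 / (4 ^ G * M), ?_, ?_, 4 * G + 10, ?_⟩
  · positivity
  · rw [div_le_one (by positivity)]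
    have h1 : (1 : ℝ) ≤ 4 ^ G := one_le_pow₀ (by norm_num)
    have h2 : (1 : ℝ) ≤ M := by exact_mod_cast hM
    nlinarith
  · intro l hlp hl q hq
    have : Fact l.Prime := ⟨hlp⟩
    have hl2 : l ≠ 2 := by omega
    have hc : (4 * (q : ZMod l)) ≠ 0 := by
      have h4 : (4 : ZMod l) = 2 * 2 := by norm_num
      rw [h4]
      refine mul_ne_zero (mul_ne_zero (two_ne hl2) (two_ne hl2)) ?_
      rwa [Ne, ZMod.natCast_eq_zero_iff]
    have h1 := card_V_ge g hl2 (4 * (q : ZMod l)) hc ⟨j, ⟨0, hg j⟩⟩ (hGG ▸ hl)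
    have h2 := card_pattern (l := l) g q j ⟨0, hg j⟩
    rw [← hMM] at h2
    rw [← hGG] at h1
    have h3 : {x : ∀ j, Fin (g j) → ZMod l | ¬ Pattern l q j x}.ncard =
        (univ.filter (fun x : ∀ j, Fin (g j) → ZMod l => ¬ Pattern l q j x)).card := by
      rw [← Set.ncard_coe_finset]
      congr 1
      ext x
      simp
    have h4 := Finset.card_filter_add_card_filter_not (s := (univ : Finset (∀ j, Fin (g j) → ZMod l)))
      (fun x => Pattern l q j x)
    rw [Finset.card_univ, card_all, ← hGG] at h4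
    rw [h3]
    obtain ⟨A, hA⟩ : ∃ A, A = (univ.filter
      (fun x : ∀ j, Fin (g j) → ZMod l => Pattern l q j x)).card := ⟨_, rfl⟩
    obtain ⟨B, hB⟩ : ∃ B, B = (univ.filter
      (fun x : ∀ j, Fin (g j) → ZMod l => ¬ Pattern l q j x)).card := ⟨_, rfl⟩
    rw [← hA] at h2 h4
    rw [← hB] at h4 ⊢
    have h5 : l ^ G ≤ 4 ^ G * (M * A) := h1.trans (Nat.mul_le_mul_left _ h2)
    have h6 : (l : ℝ) ^ G ≤ 4 ^ G * (M * A) := by exact_mod_cast h5
    have h7 : (A : ℝ) + B = (l : ℝ) ^ G := by exact_mod_cast h4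
    rw [← hGG]
    have hpos : (0 : ℝ) < 4 ^ G * M := by positivity
    have h8 : (l : ℝ) ^ G / (4 ^ G * M) ≤ A := by
      rw [div_le_iff₀ hpos]
      linarith
    have h9 : (1 - 1 / (4 ^ G * (M : ℝ))) * (l : ℝ) ^ G =
        (l : ℝ) ^ G - (l : ℝ) ^ G / (4 ^ G * M) := by ring
    rw [h9]
    linarith

end Pool.Agent.AWP
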