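import Pool.Agent.AWP.Targets

set_option autoImplicit false

/-!
# Roots of unity and irreducibility
-/

namespace Pool.Agent.AWP

open Polynomial Finset
open Pool.Agent.CMT (QBar)
open scoped BigOperators IntermediateField

namespace ROIR_

variable {g : ℕ}

theorem aeval_poly (b : Fin g → ℤ) (y : QBar) :
    aeval y (poly b) = y ^ g + ∑ i : Fin g, (b i : QBar) * y ^ (g - 1 - i.val) := by
  simp [poly, map_sum]

theorem aeval_weil (q : ℕ) (b : Fin g → ℤ) (α : QBar) :
    aeval α (weil q b) = (α ^ 2 + q) ^ g +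
      ∑ i : Fin g, (b i : QBar) * α ^ (i.val + 1) * (α ^ 2 + q) ^ (g - 1 - i.val) := by
  simp [weil, map_sum]

theorem weil_poly (q : ℕ) (b : Fin g → ℤ) (α : QBar) (h : α ≠ 0) :
    aeval α (weil q b) = α ^ g * aeval (α + q / α) (poly b) := by
  have h1 : α ^ 2 + q = α * (α + q / α) := by field_simp
  rw [aeval_weil, aeval_poly, h1, mul_pow, mul_add (α ^ g), mul_sum]
  congr 1
  refine sum_congr rfl fun i _ => ?_
  have h2 : α ^ g = α ^ (i.val + 1) * α ^ (g - 1 - i.val) := by
    rw [← pow_add]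
    congr 1
    have := i.2
    omega
  rw [h2, mul_pow]
  ring

theorem ne_zero {q : ℕ} (hq : 0 < q) {b : Fin g → ℤ} {α : QBar} (h : aeval α (weil q b) = 0) :
    α ≠ 0 := by
  rintro rfl
  rw [aeval_weil] at h
  have h1 : ∑ i : Fin g, (b i : QBar) * (0 : QBar) ^ (i.val + 1) *
      ((0 : QBar) ^ 2 + q) ^ (g - 1 - i.val) = 0 :=
    sum_eq_zero fun i _ => by rw [zero_pow (by omega)]; ring
  rw [h1, add_zero] at h
  have h2 : (0 : QBar) ^ 2 + q = q := by ring
  rw [h2] at h
  have h3 : (q : QBar) = 0 := by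
    rcases Nat.eq_zero_or_pos g with h0 | h0
    · subst h0; simp at h
    · exact (pow_eq_zero_iff (by omega)).1 h
  have h4 : q = 0 := by exact_mod_cast h3
  omega

theorem root_y {q : ℕ} (hq : 0 < q) {b : Fin g → ℤ} {α : QBar} (h : aeval α (weil q b) = 0) :
    aeval (α + q / α) (poly b) = 0 := by
  have h0 := ne_zero hq h
  rw [weil_poly q b α h0] at h
  exact (mul_eq_zero.1 h).resolve_left (pow_ne_zero _ h0)

theorem quad {q : ℕ} {α : QBar} (h0 : α ≠ 0) : α ^ 2 - (α + q / α) * α + q = 0 := by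
  field_simp
  ring

theorem poly_deg_aux (b : Fin g → ℤ) :
    degree (∑ i : Fin g, C (b i) * X ^ (g - 1 - i.val) : ℤ[X]) < (g : ℕ) := by
  refine lt_of_le_of_lt (degree_sum_le _ _) ((Finset.sup_lt_iff (WithBot.bot_lt_coe g)).2 ?_)
  intro i _
  refine (degree_C_mul_X_pow_le _ _).trans_lt ?_
  have := i.2
  exact WithBot.coe_lt_coe.2 (by omega : g - 1 - i.val < g)

theorem poly_monic (b : Fin g → ℤ) : (poly b).Monic := monic_X_pow_add (poly_deg_aux b)

theorem poly_natDegree (b : Fin g → ℤ) : (poly b).natDegree = g := by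
  have h : (poly b).degree = ((X : ℤ[X]) ^ g).degree := by
    unfold poly
    exact degree_add_eq_left_of_degree_lt (by rw [degree_X_pow]; exact poly_deg_aux b)
  rw [natDegree, h, degree_X_pow]
  rfl

theorem base_monic (q : ℕ) : (X ^ 2 + C (q : ℤ) : ℤ[X]).Monic :=
  monic_X_pow_add_C _ (by norm_num)

theorem base_natDegree (q : ℕ) : (X ^ 2 + C (q : ℤ) : ℤ[X]).natDegree = 2 :=
  natDegree_X_pow_add_C

theorem weil_lead (q : ℕ) : ((X ^ 2 + C (q : ℤ) : ℤ[X]) ^ g).natDegree = 2 * g := by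
  rw [(base_monic q).natDegree_pow, base_natDegree, mul_comm]

theorem weil_deg_aux (q : ℕ) (b : Fin g → ℤ) :
    degree (∑ i : Fin g, C (b i) * X ^ (i.val + 1) * (X ^ 2 + C (q : ℤ)) ^ (g - 1 - i.val) : ℤ[X])
      < degree ((X ^ 2 + C (q : ℤ) : ℤ[X]) ^ g) := by
  rw [degree_eq_natDegree ((base_monic q).pow g).ne_zero, weil_lead]
  refine (degree_sum_le _ _).trans_lt ?_
  rw [Finset.sup_lt_iff (WithBot.bot_lt_coe _)]
  intro i _
  have h1 : natDegree (C (b i) * X ^ (i.val + 1) * (X ^ 2 + C (q : ℤ)) ^ (g - 1 - i.val) : ℤ[X]) ≤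
      (0 + (i.val + 1)) + (g - 1 - i.val) * 2 := by
    refine natDegree_mul_le_of_le (natDegree_mul_le_of_le (natDegree_C _).le
      (natDegree_X_pow _).le) ?_
    rw [(base_monic q).natDegree_pow, base_natDegree]
  refine (degree_le_of_natDegree_le h1).trans_lt ?_
  have := i.2
  exact_mod_cast (by omega : 0 + (i.val + 1) + (g - 1 - i.val) * 2 < 2 * g)

theorem weil_monic (q : ℕ) (b : Fin g → ℤ) : (weil q b).Monic :=
  ((base_monic q).pow g).add_of_left (weil_deg_aux q b)

theorem weil_natDegree (q : ℕ) (b : Fin g → ℤ) : (weil q b).natDegree = 2 * g := by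
  have h1 : (weil q b).degree = degree ((X ^ 2 + C (q : ℤ) : ℤ[X]) ^ g) :=
    degree_add_eq_left_of_degree_lt (weil_deg_aux q b)
  rw [natDegree, h1, ← natDegree, weil_lead]

theorem map_eq_minpoly {f : ℤ[X]} (hm : f.Monic) (hi : Irreducible f) {x : QBar}
    (hx : aeval x f = 0) : f.map (algebraMap ℤ ℚ) = minpoly ℚ x := by
  apply minpoly.eq_of_irreducible_of_monic
  · exact (hm.irreducible_iff_irreducible_map_fraction_map (K := ℚ)).1 hi
  · rwa [aeval_map_algebraMap]
  · exact hm.map _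

theorem isAlg : Algebra.IsAlgebraic ℚ QBar := by
  have e : (AlgebraicClosure.instAlgebra ℚ : Algebra ℚ (AlgebraicClosure ℚ)) =
      (DivisionRing.toRatAlgebra : Algebra ℚ QBar) := Subsingleton.elim _ _
  have h := AlgebraicClosure.isAlgebraic ℚ
  rw [e] at h
  exact h

theorem isInt (x : QBar) : IsIntegral ℚ x := (isAlg.isAlgebraic x).isIntegral

/-- a ring automorphism as an automorphism over the rationals -/
noncomputable def toAlg (τ : QBar ≃+* QBar) : QBar ≃ₐ[ℚ] QBar :=
  AlgEquiv.ofRingEquiv (f := τ) fun x => by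
    rw [eq_ratCast, map_ratCast]

theorem fix_adjoin (τ : QBar ≃+* QBar) {y α : QBar} (hy : τ y = y) (h : α ∈ ℚ⟮y⟯) : τ α = α := by
  have hint : IsIntegral ℚ y := isInt y
  have h1 : α ∈ (ℚ⟮y⟯).toSubalgebra := h
  rw [IntermediateField.adjoin_simple_toSubalgebra_of_isAlgebraic hint.isAlgebraic] at h1
  have h2 : Algebra.adjoin ℚ {y} ≤
      AlgHom.equalizer ((toAlg τ : QBar ≃ₐ[ℚ] QBar) : QBar →ₐ[ℚ] QBar) (AlgHom.id ℚ QBar) := by
    rw [Algebra.adjoin_le_iff]
    rintro z hz
    rw [Set.mem_singleton_iff.1 hz]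
    exact hy
  exact h2 h1

end ROIR_

open ROIR_

theorem p_IRR : T_IRR := by
  intro r g q hq b j hg hirr hfl
  have hWm := weil_monic q (b j)
  have hWd := weil_natDegree q (b j)
  rw [hWm.irreducible_iff_irreducible_map_fraction_map (K := ℚ)]
  have hmapd : ((weil q (b j)).map (algebraMap ℤ ℚ)).natDegree = 2 * g j := by
    rw [hWm.natDegree_map, hWd]
  obtain ⟨α, hα⟩ := IsAlgClosed.exists_aeval_eq_zero QBar ((weil q (b j)).map (algebraMap ℤ ℚ))
    (by
      intro h
      have h1 : ((weil q (b j)).map (algebraMap ℤ ℚ)).natDegree = 0 :=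
        natDegree_eq_of_degree_eq_some h
      omega)
  have hα' : aeval α (weil q (b j)) = 0 := by rwa [aeval_map_algebraMap] at hα
  have hα0 := ne_zero hq hα'
  have hy := root_y hq hα'
  have hquad := quad (q := q) hα0
  set y : QBar := α + q / α with hydef
  obtain ⟨-, hy4, τ, hτ1, -⟩ := hfl y hy
  have hτα : τ α = y - α := hτ1 α hquad
  have hτy : τ y = y := by
    have h1 : τ (y - α) = α := by
      have h2 := hτ1 (y - α) (by linear_combination hquad)
      rw [h2]; ring
    rw [map_sub, hτα] at h1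
    linear_combination h1
  have hαy : α ∉ ℚ⟮y⟯ := by
    intro h
    have h1 := fix_adjoin τ hτy h
    rw [hτα] at h1
    apply hy4
    have h2 : y = 2 * α := by linear_combination h1
    rw [h2] at hquad ⊢
    linear_combination (-4) * hquad
  have hintα : IsIntegral ℚ α := isInt α
  have hinty : IsIntegral ℚ y := isInt y
  have hdy : (minpoly ℚ y).natDegree = g j := by
    rw [← map_eq_minpoly (poly_monic (b j)) hirr hy, (poly_monic (b j)).natDegree_map,
      poly_natDegree]
  have hint2 : IsIntegral ℚ⟮y⟯ α := (isInt α).tower_top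
  have hd2 : 2 ≤ (minpoly ℚ⟮y⟯ α).natDegree := by
    rw [minpoly.two_le_natDegree_iff hint2]
    rintro ⟨z, hz⟩
    apply hαy
    rw [← hz]
    exact z.2
  have hf1 : Module.finrank ℚ ℚ⟮y⟯ = g j := by rw [IntermediateField.adjoin.finrank hinty, hdy]
  have hf2 : 2 ≤ Module.finrank ℚ⟮y⟯ (ℚ⟮y⟯)⟮α⟯ := by
    rw [IntermediateField.adjoin.finrank hint2]
    exact hd2
  have hf3 := Module.finrank_mul_finrank ℚ ℚ⟮y⟯ (ℚ⟮y⟯)⟮α⟯
  have hf4 : ((ℚ⟮y⟯)⟮α⟯).restrictScalars ℚ = ℚ⟮α⟯ := by
    refine (IntermediateField.adjoin_simple_adjoin_simple ℚ y α).trans ?_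
    apply le_antisymm
    · rw [IntermediateField.adjoin_le_iff]
      intro z hz
      rcases hz with rfl | hz
      · have hα1 : α ∈ ℚ⟮α⟯ := IntermediateField.mem_adjoin_simple_self ℚ α
        refine IntermediateField.add_mem _ hα1 (IntermediateField.div_mem _ ?_ hα1)
        exact natCast_mem _ q
      · rw [Set.mem_singleton_iff.1 hz]
        exact IntermediateField.mem_adjoin_simple_self ℚ α
    · exact IntermediateField.adjoin.mono _ _ _ (by simp)
  have hf5 : Module.finrank ℚ (ℚ⟮y⟯)⟮α⟯ = (minpoly ℚ α).natDegree := by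
    rw [← IntermediateField.adjoin.finrank hintα, ← hf4]
    rfl
  have hge : 2 * g j ≤ (minpoly ℚ α).natDegree := by
    rw [← hf5, ← hf3, hf1, mul_comm]
    exact Nat.mul_le_mul_left _ hf2
  have hdvd : minpoly ℚ α ∣ (weil q (b j)).map (algebraMap ℤ ℚ) := minpoly.dvd _ _ hα
  have heq := eq_of_monic_of_dvd_of_natDegree_le (minpoly.monic hintα) (hWm.map _) hdvd
    (by rw [hmapd]; exact hge)
  rw [heq]
  exact minpoly.irreducible hintα

theorem p_ROU : T_ROU := by
  intro r g q hq b j hg hirr hfl α hα N hN hpow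
  have hWm := weil_monic q (b j)
  have hWd := weil_natDegree q (b j)
  have hmin := map_eq_minpoly hWm hirr hα
  have hα0 := ne_zero hq hα
  have hq0 : (q : QBar) ≠ 0 := by exact_mod_cast hq.ne'
  have hy := root_y hq hα
  have hquad := quad (q := q) hα0
  have hmd : (minpoly ℚ α).natDegree = 2 * g j := by
    rw [← hmin, hWm.natDegree_map, hWd]
  have hintα : IsIntegral ℚ α := isInt α
  -- a second root
  have hex : ∃ β : QBar, aeval β (weil q (b j)) = 0 ∧ β ≠ α ∧ β ≠ q / α := by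
    by_contra hcon
    push Not at hcon
    have hsep : (minpoly ℚ α).Separable := (minpoly.irreducible hintα).separable
    have hcard : ((minpoly ℚ α).rootSet QBar).ncard = 2 * g j := by
      rw [Set.ncard_eq_toFinset_card', Set.toFinset_card,
        card_rootSet_eq_natDegree hsep (IsAlgClosed.splits _), hmd]
    have hsub : (minpoly ℚ α).rootSet QBar ⊆ {α, (q : QBar) / α} := by
      intro β hβ
      have h1 : aeval β (minpoly ℚ α) = 0 := aeval_eq_zero_of_mem_rootSet hβ
      rw [← hmin, aeval_map_algebraMap] at h1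
      by_cases h2 : β = α
      · left; exact h2
      · right; exact hcon β h1 h2
    have h3 := Set.ncard_le_ncard hsub (by simp)
    have h4 : ({α, (q : QBar) / α} : Set QBar).ncard ≤ 2 :=
      (Set.ncard_insert_le _ _).trans (by rw [Set.ncard_singleton])
    omega
  obtain ⟨β, hβ, hβ1, hβ2⟩ := hex
  have hβ0 := ne_zero hq hβ
  have hyβ := root_y hq hβ
  have hquadβ := quad (q := q) hβ0
  have hyne : β + q / β ≠ α + q / α := by
    intro h
    rw [h] at hquadβ
    have h1 : (β - α) * (β - q / α) = 0 := by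
      have h2 : α * (q / α) = q := by field_simp
      linear_combination hquadβ + h2
    rcases mul_eq_zero.1 h1 with h2 | h2
    · exact hβ1 (sub_eq_zero.1 h2)
    · exact hβ2 (sub_eq_zero.1 h2)
  -- an automorphism
  have hminβ := map_eq_minpoly hWm hirr hβ
  have hconj : IsConjRoot ℚ β α := by
    change minpoly ℚ β = minpoly ℚ α
    rw [← hmin, ← hminβ]
  have hnorm : Normal ℚ QBar := normal_iff.2 fun x => ⟨isInt x, IsAlgClosed.splits _⟩
  obtain ⟨σ, hσ⟩ := isConjRoot_iff_exists_algEquiv.1 hconj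
  obtain ⟨-, hy4, τ, hτ1, hτ2⟩ := hfl _ hy
  have hτα : τ α = q / α := by
    rw [hτ1 α hquad]; ring
  have hτβ : τ β = β := hτ2 j _ hyβ (Or.inr hyne) β hquadβ
  set ζ : QBar := α ^ 2 / q with hζ
  have hζN : ζ ^ N = 1 := by
    rw [hζ, div_pow, hpow, div_self (pow_ne_zero _ hq0)]
  have hσζ : σ ζ = β ^ 2 / q := by
    rw [hζ, map_div₀, map_pow, hσ, map_natCast]
  have hord : 0 < orderOf ζ := orderOf_pos_iff.2 (isOfFinOrder_iff_pow_eq_one.2 ⟨N, hN, hζN⟩)
  have hprim : IsPrimitiveRoot (σ ζ) (orderOf ζ) :=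
    (IsPrimitiveRoot.orderOf ζ).map_of_injective σ.injective
  have : NeZero (orderOf ζ) := ⟨hord.ne'⟩
  obtain ⟨k, -, hk⟩ := hprim.eq_pow_of_pow_eq_one (pow_orderOf_eq_one ζ)
  have hτζ : τ ζ = ζ := by
    rw [← hk, map_pow, hσζ, map_div₀, map_pow, hτβ, map_natCast]
  have hτζ' : τ ζ = (q / α) ^ 2 / q := by
    rw [hζ, map_div₀, map_pow, hτα, map_natCast]
  have hfin : (α ^ 2 - q) * (α ^ 2 + q) = 0 := by
    rw [hτζ, hζ] at hτζ'
    field_simp at hτζ'
    linear_combination hτζ'
  rcases mul_eq_zero.1 hfin with h | h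
  · apply hy4
    have h1 : (q : QBar) = α ^ 2 := by linear_combination -h
    rw [h1]
    field_simp
    ring
  · have h1 : aeval α (X ^ 2 + C (q : ℚ) : ℚ[X]) = 0 := by
      simp
      exact h
    have h2 : (X ^ 2 + C (q : ℚ) : ℚ[X]) ≠ 0 := (monic_X_pow_add_C _ (by norm_num)).ne_zero
    have h3 := natDegree_le_of_dvd (minpoly.dvd ℚ α h1) h2
    rw [natDegree_X_pow_add_C, hmd] at h3
    omega

end Pool.Agent.AWP
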