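import Mathlib
import Pool.Agent.CMT.Defs

set_option autoImplicit false

/-!
# Almost all Weil polynomials: definitions and targets

A real Weil polynomial of degree `g` for `q` is a monic integral polynomial `h` of degree `g` all of
whose complex roots are real and of absolute value at most `2 √q`; the polynomial
`f(x) = x ^ g h(x + q / x)` is then a Weil polynomial: its roots are the eigenvalues of the Frobenius
of an isogeny class of abelian varieties over the field with `q` elements (Honda, Tate).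
-/

namespace Pool.Agent.AWP

open Polynomial Finset
open Pool.Agent.CMT (QBar)
open scoped BigOperators

/-! ## Definitions -/

/-- the polynomial `Y ^ g + b_0 Y ^ (g - 1) + ... + b_(g - 1)` -/
noncomputable def poly {R : Type} [CommRing R] {g : ℕ} (b : Fin g → R) : R[X] :=
  X ^ g + ∑ i : Fin g, C (b i) * X ^ (g - 1 - i.val)

/-- all complex roots are real and of absolute value at most `2 √q` -/
def IsRealWeil {g : ℕ} (q : ℕ) (b : Fin g → ℤ) : Prop :=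
  ∀ z : ℂ, aeval z (poly b) = 0 → ∃ y : ℝ, z = y ∧ y ^ 2 ≤ 4 * q

/-- the Weil polynomial `x ^ g h(x + q / x)`, where `h` has the coefficients `b` -/
noncomputable def weil {g : ℕ} (q : ℕ) (b : Fin g → ℤ) : ℤ[X] :=
  (X ^ 2 + C (q : ℤ)) ^ g +
    ∑ i : Fin g, C (b i) * X ^ (i.val + 1) * (X ^ 2 + C (q : ℤ)) ^ (g - 1 - i.val)

/-- the roots of the Weil polynomial in the algebraic numbers -/
abbrev Root {g : ℕ} (q : ℕ) (b : Fin g → ℤ) : Type := {α : QBar // aeval α (weil q b) = 0}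

/-- the Frobenius eigenlines in the first cohomology of `∏ A_j ^ n_j`, where `A_j` has the Weil
polynomial with the coefficients `b j` -/
abbrev Idx {r : ℕ} {g : Fin r → ℕ} (q : ℕ) (b : ∀ j, Fin (g j) → ℤ) (n : Fin r → ℕ) : Type :=
  Σ j, Root q (b j) × Fin (n j)

/-- Tate weights of codimension `i`: sets of `2 i` eigenlines such that the product of the
eigenvalues is `q ^ i` times a root of unity -/
def TateWeight {r : ℕ} {g : Fin r → ℕ} (q : ℕ) (b : ∀ j, Fin (g j) → ℤ) {n : Fin r → ℕ} (i : ℕ)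
    (Δ : Finset (Idx q b n)) : Prop :=
  Δ.card = 2 * i ∧ ∃ N : ℕ, 0 < N ∧ (∏ x ∈ Δ, x.2.1.1) ^ N = (q : QBar) ^ (i * N)

/-- disjoint unions of Tate weights of codimension one -/
def Divisorial {r : ℕ} {g : Fin r → ℕ} (q : ℕ) (b : ∀ j, Fin (g j) → ℤ) {n : Fin r → ℕ}
    (Δ : Finset (Idx q b n)) : Prop :=
  ∃ D : Finset (Finset (Idx q b n)), (D : Set (Finset (Idx q b n))).PairwiseDisjoint id ∧
    (∀ x, x ∈ Δ ↔ ∃ B ∈ D, x ∈ B) ∧ ∀ B ∈ D, TateWeight q b 1 B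

/-- the Weil polynomials are irreducible and all Tate weights, of all codimensions on all products
of powers, are disjoint unions of Tate weights of codimension one -/
def Good {r : ℕ} {g : Fin r → ℕ} (q : ℕ) (b : ∀ j, Fin (g j) → ℤ) : Prop :=
  (∀ j, Irreducible (weil q (b j))) ∧
    ∀ (n : Fin r → ℕ) (i : ℕ) (Δ : Finset (Idx q b n)), TateWeight q b i Δ → Divisorial q b Δ

/-- the tuples of real Weil polynomials of the degrees `g j` -/
def Tuples {r : ℕ} (g : Fin r → ℕ) (q : ℕ) : Set (∀ j, Fin (g j) → ℤ) :=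
  {b | ∀ j, IsRealWeil q (b j)}

/-- `y₀` is a root of the polynomial of `b j`, and there is an automorphism which interchanges the
two roots of `x ^ 2 - y₀ x + q` and fixes all the other roots of all the Weil polynomials -/
def HasFlip {r : ℕ} {g : Fin r → ℕ} (q : ℕ) (b : ∀ j, Fin (g j) → ℤ) (j : Fin r) (y₀ : QBar) :
    Prop :=
  aeval y₀ (poly (b j)) = 0 ∧ y₀ ^ 2 ≠ 4 * q ∧ ∃ τ : QBar ≃+* QBar,
    (∀ α : QBar, α ^ 2 - y₀ * α + q = 0 → τ α = y₀ - α) ∧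
    ∀ (i : Fin r) (y : QBar), aeval y (poly (b i)) = 0 → (i ≠ j ∨ y ≠ y₀) →
      ∀ α : QBar, α ^ 2 - y * α + q = 0 → τ α = α

/-- reduction of the coefficients modulo `l` -/
def red (l : ℕ) {r : ℕ} {g : Fin r → ℕ} (b : ∀ j, Fin (g j) → ℤ) : ∀ j, Fin (g j) → ZMod l :=
  fun j i => (b j i : ZMod l)

/-- modulo `l` all polynomials split with distinct roots `y`, and `y ^ 2 - 4 q` is a nonzero square
for all of these roots except one root of the polynomial with the index `j`, for which it is not a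
square -/
def Pattern (l : ℕ) (q : ℕ) {r : ℕ} {g : Fin r → ℕ} (j : Fin r)
    (x : ∀ j, Fin (g j) → ZMod l) : Prop :=
  ∃ y : ∀ i, Fin (g i) → ZMod l, (∀ i, Function.Injective (y i)) ∧
    (∀ i, poly (x i) = ∏ k, (X - C (y i k))) ∧
    ∃ k₀ : Fin (g j), ¬ IsSquare (y j k₀ ^ 2 - 4 * (q : ZMod l)) ∧
      ∀ (i : Fin r) (k : Fin (g i)), (⟨i, k⟩ : Σ i, Fin (g i)) ≠ ⟨j, k₀⟩ →
        IsSquare (y i k ^ 2 - 4 * (q : ZMod l)) ∧ y i k ^ 2 - 4 * (q : ZMod l) ≠ 0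

/-! ## Targets -/

/-- LOWER: many real Weil polynomials. -/
def T_LOWER : Prop := ∀ g : ℕ, ∃ c : ℝ, 0 < c ∧ ∃ q₀ : ℕ, ∀ q : ℕ, q₀ ≤ q →
  c * ∏ i : Fin g, Real.sqrt q ^ (i.val + 1) ≤
    (({b : Fin g → ℤ | IsRealWeil q b}.ncard : ℕ) : ℝ)

/-- UPPER: the coefficients of real Weil polynomials. -/
def T_UPPER : Prop := ∀ (g q : ℕ) (b : Fin g → ℤ), IsRealWeil q b →
  ∀ i : Fin g, |(b i : ℝ)| ≤ 4 ^ g * Real.sqrt q ^ (i.val + 1)

/-- CRTB: counting in boxes with congruence conditions. -/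
def T_CRTB : Prop := ∀ (ι : Type) [Fintype ι] (P : Finset ℕ), (∀ l ∈ P, l.Prime) →
  ∀ (B : (l : ℕ) → Set (ι → ZMod l)) (S : ι → ℝ), (∀ i, 0 ≤ S i) →
    (({x : ι → ℤ | (∀ i, |(x i : ℝ)| ≤ S i) ∧
      ∀ l ∈ P, (fun i => (x i : ZMod l)) ∈ B l}.ncard : ℕ) : ℝ) ≤
      (∏ l ∈ P, (((B l).ncard : ℕ) : ℝ) / (l : ℝ) ^ Fintype.card ι) *
        ∏ i, (2 * S i + 1 + ∏ l ∈ P, (l : ℝ))

/-- PAT: the pattern occurs for a positive proportion of the residue classes. -/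
def T_PAT : Prop := ∀ (r : ℕ) (g : Fin r → ℕ), (∀ j, 1 ≤ g j) → ∀ j : Fin r,
  ∃ δ : ℝ, 0 < δ ∧ δ ≤ 1 ∧ ∃ l₀ : ℕ, ∀ l : ℕ, l.Prime → l₀ ≤ l → ∀ q : ℕ, ¬ l ∣ q →
    (({x : ∀ j, Fin (g j) → ZMod l | ¬ Pattern l q j x}.ncard : ℕ) : ℝ) ≤
      (1 - δ) * (l : ℝ) ^ Fintype.card (Σ j, Fin (g j))

/-- IRRD: a positive proportion of the polynomials modulo `l` is irreducible. -/
def T_IRRD : Prop := ∀ g : ℕ, 1 ≤ g →
  ∃ δ : ℝ, 0 < δ ∧ δ ≤ 1 ∧ ∃ l₀ : ℕ, ∀ l : ℕ, l.Prime → l₀ ≤ l →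
    (({x : Fin g → ZMod l | ¬ Irreducible (poly x)}.ncard : ℕ) : ℝ) ≤ (1 - δ) * (l : ℝ) ^ g

/-- FROB: the Frobenius automorphism of a prime with the pattern is a single flip. -/
def T_FROB : Prop := ∀ (r : ℕ) (g : Fin r → ℕ) (q : ℕ) (b : ∀ j, Fin (g j) → ℤ) (j : Fin r)
  (l : ℕ), l.Prime → 3 ≤ l → ¬ l ∣ q → Pattern l q j (red l b) → ∃ y₀ : QBar, HasFlip q b j y₀

/-- TRANS: irreducible modulo a prime: irreducible, and the automorphisms act transitively. -/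
def T_TRANS : Prop := ∀ (g : ℕ), 1 ≤ g → ∀ (b : Fin g → ℤ) (l : ℕ), l.Prime →
  Irreducible (poly (fun i => (b i : ZMod l))) →
  Irreducible (poly b) ∧ ∀ y y' : QBar, aeval y (poly b) = 0 → aeval y' (poly b) = 0 →
    ∃ τ : QBar ≃+* QBar, τ y = y'

/-- CONJ: one flip and transitivity give all flips. -/
def T_CONJ : Prop := ∀ (r : ℕ) (g : Fin r → ℕ) (q : ℕ) (b : ∀ j, Fin (g j) → ℤ) (j : Fin r)
  (y₀ y₁ : QBar), HasFlip q b j y₀ → (∃ τ : QBar ≃+* QBar, τ y₀ = y₁) → HasFlip q b j y₁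

/-- ROU: for degree at least two the quotients of conjugate roots are not roots of unity. -/
def T_ROU : Prop := ∀ (r : ℕ) (g : Fin r → ℕ) (q : ℕ), 0 < q → ∀ (b : ∀ j, Fin (g j) → ℤ)
  (j : Fin r), 2 ≤ g j → Irreducible (weil q (b j)) →
  (∀ y : QBar, aeval y (poly (b j)) = 0 → HasFlip q b j y) →
  ∀ α : QBar, aeval α (weil q (b j)) = 0 → ∀ N : ℕ, 0 < N → (α ^ 2) ^ N ≠ (q : QBar) ^ N

/-- ONE: degree one: few supersingular traces. -/
def T_ONE : Prop := ∀ q : ℕ, 0 < q → {b : Fin 1 → ℤ | IsRealWeil q b ∧ ∃ α : QBar,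
  aeval α (weil q b) = 0 ∧ ∃ N : ℕ, 0 < N ∧ (α ^ 2) ^ N = (q : QBar) ^ N}.ncard ≤ 9

/-- IRR: flips and irreducibility of the real Weil polynomial give irreducibility. -/
def T_IRR : Prop := ∀ (r : ℕ) (g : Fin r → ℕ) (q : ℕ), 0 < q → ∀ (b : ∀ j, Fin (g j) → ℤ)
  (j : Fin r), 1 ≤ g j → Irreducible (poly (b j)) →
  (∀ y : QBar, aeval y (poly (b j)) = 0 → HasFlip q b j y) → Irreducible (weil q (b j))

/-- FIN: all flips and no quotient a root of unity: only divisorial Tate weights. -/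
def T_FIN : Prop := ∀ (r : ℕ) (g : Fin r → ℕ) (q : ℕ), 0 < q → ∀ (b : ∀ j, Fin (g j) → ℤ),
  (∀ j, Irreducible (weil q (b j))) →
  (∀ (j : Fin r) (y : QBar), aeval y (poly (b j)) = 0 → HasFlip q b j y) →
  (∀ (j : Fin r) (α : QBar), aeval α (weil q (b j)) = 0 → ∀ N : ℕ, 0 < N →
    (α ^ 2) ^ N ≠ (q : QBar) ^ N) → Good q b

/-- MAIN: almost all tuples of real Weil polynomials are good. -/
def T_MAIN : Prop := ∀ (r : ℕ) (g : Fin r → ℕ), (∀ j, 1 ≤ g j) → ∀ ε : ℝ, 0 < ε →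
  ∃ q₀ : ℕ, ∀ p a q : ℕ, p.Prime → q = p ^ a → q₀ ≤ q →
    (Tuples g q).Finite ∧ 0 < (Tuples g q).ncard ∧
    (({b ∈ Tuples g q | ¬ Good q b}.ncard : ℕ) : ℝ) ≤ ε * ((Tuples g q).ncard : ℕ)

end Pool.Agent.AWP
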