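import Mathlib
import Pool.Agent.AWP.Targets

set_option autoImplicit false

namespace Pool.Agent.AWP

open Polynomial Finset
open Pool.Agent.CMT (QBar)
open scoped BigOperators

namespace TRCO_

theorem degree_tail_lt {R : Type} [CommRing R] [Nontrivial R] {g : ℕ} (hg : 1 ≤ g)
    (b : Fin g → R) :
    (∑ i : Fin g, C (b i) * X ^ (g - 1 - i.val) : R[X]).degree < (g : WithBot ℕ) := by
  rw [← Polynomial.mem_degreeLT]
  refine Submodule.sum_mem _ fun i _ => ?_
  rw [Polynomial.mem_degreeLT]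
  refine (degree_C_mul_X_pow_le _ _).trans_lt ?_
  have h1 : i.val < g := i.isLt
  exact_mod_cast (by omega : g - 1 - i.val < g)

theorem poly_monic {R : Type} [CommRing R] [Nontrivial R] {g : ℕ} (hg : 1 ≤ g)
    (b : Fin g → R) : (poly b).Monic := by
  unfold poly
  exact monic_X_pow_add (degree_tail_lt hg b)

theorem poly_map {R S : Type} [CommRing R] [CommRing S] (f : R →+* S) {g : ℕ}
    (b : Fin g → R) : (poly b).map f = poly (fun i => f (b i)) := by
  unfold poly
  simp [Polynomial.map_sum]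

theorem flip_conj {r : ℕ} {g : Fin r → ℕ} {q : ℕ} {b : ∀ j, Fin (g j) → ℤ} {j : Fin r}
    {y₀ y₁ : QBar} (h : HasFlip q b j y₀) (ρ : QBar ≃+* QBar) (hρ : ρ y₀ = y₁) :
    HasFlip q b j y₁ := by
  obtain ⟨h0, hne, τ, h1, h2⟩ := h
  have hroot : ∀ (i : Fin r) (y : QBar) (σ : QBar ≃+* QBar), aeval y (poly (b i)) = 0 →
      aeval (σ y) (poly (b i)) = 0 := by
    intro i y σ hy
    have := congrArg σ hy
    rw [map_zero] at this
    rw [← this]
    have e : σ (aeval y (poly (b i))) = (σ : QBar →+* QBar).toIntAlgHom (aeval y (poly (b i))) := rfl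
    rw [e, ← Polynomial.aeval_algHom_apply]
    rfl
  have hq : ∀ σ : QBar ≃+* QBar, σ (q : QBar) = q := fun σ => map_natCast σ q
  refine ⟨?_, ?_, (ρ.symm.trans τ).trans ρ, ?_, ?_⟩
  · rw [← hρ]; exact hroot j y₀ ρ h0
  · intro h
    apply hne
    apply ρ.injective
    rw [map_pow, hρ, h, map_mul, hq]
    have h4 : ρ (4 : QBar) = 4 := map_ofNat ρ 4
    rw [h4]
  · intro α hα
    have e1 : (ρ.symm α) ^ 2 - y₀ * ρ.symm α + q = 0 := by
      apply ρ.injective
      rw [map_add, map_sub, map_pow, map_mul, ρ.apply_symm_apply, hρ, hq, map_zero, hα]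
    have e2 := h1 _ e1
    show ρ (τ (ρ.symm α)) = y₁ - α
    rw [e2, map_sub, hρ, ρ.apply_symm_apply]
  · intro i y hy hiy α hα
    have e1 : (ρ.symm α) ^ 2 - ρ.symm y * ρ.symm α + q = 0 := by
      apply ρ.injective
      rw [map_add, map_sub, map_pow, map_mul, ρ.apply_symm_apply, ρ.apply_symm_apply, hq,
        map_zero, hα]
    have e2 := h2 i (ρ.symm y) (hroot i y ρ.symm hy) (by
      rcases hiy with h | h
      · exact Or.inl h
      · right
        intro h'
        apply h
        rw [← hρ, ← h', ρ.apply_symm_apply]) _ e1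
    show ρ (τ (ρ.symm α)) = α
    rw [e2, ρ.apply_symm_apply]

end TRCO_

open TRCO_

theorem p_CONJ : T_CONJ := by
  intro r g q b j y₀ y₁ h ⟨ρ, hρ⟩
  exact flip_conj h ρ hρ

theorem p_TRANS : T_TRANS := by
  intro g hg b l hl hirr
  have : Fact l.Prime := ⟨hl⟩
  have hmon : (poly b).Monic := poly_monic hg b
  have h1 : Irreducible (poly b) := by
    refine hmon.irreducible_of_irreducible_map (Int.castRingHom (ZMod l)) _ ?_
    rw [poly_map]
    exact hirr
  refine ⟨h1, ?_⟩
  intro y y' hy hy'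
  have h2 : Irreducible ((poly b).map (algebraMap ℤ ℚ)) :=
    (hmon.irreducible_iff_irreducible_map_fraction_map (K := ℚ)).1 h1
  have hmon2 : ((poly b).map (algebraMap ℤ ℚ)).Monic := hmon.map _
  have key : ∀ z : QBar, aeval z (poly b) = 0 →
      (poly b).map (algebraMap ℤ ℚ) = minpoly ℚ z := by
    intro z hz
    refine minpoly.eq_of_irreducible_of_monic h2 ?_ hmon2
    rw [aeval_map_algebraMap]
    exact hz
  have halg : Algebra.IsAlgebraic ℚ QBar := AlgebraicClosure.isAlgebraic ℚ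
  have hnorm : Normal ℚ QBar := by
    exact normal_iff.2 fun x => ⟨(halg.isAlgebraic x).isIntegral, IsAlgClosed.splits _⟩
  have h3 : IsConjRoot ℚ y' y := ((key y' hy').symm.trans (key y hy) : minpoly ℚ y' = minpoly ℚ y)
  obtain ⟨σ, hσ⟩ := isConjRoot_iff_exists_algEquiv.1 h3
  exact ⟨(σ : QBar ≃+* QBar), hσ⟩

end Pool.Agent.AWP
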