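import Pool.Agent.AWP.Targets

set_option autoImplicit false

/-!
# UPPER: the coefficients of real Weil polynomials
-/

namespace Pool.Agent.AWP

open Polynomial Finset
open Pool.Agent.CMT (QBar)
open scoped BigOperators

namespace UPPER_

theorem low_deg {R : Type} [CommRing R] {g : ℕ} (b : Fin g → R) :
    (∑ i : Fin g, C (b i) * X ^ (g - 1 - i.val) : R[X]).degree < (g : WithBot ℕ) := by
  refine (degree_sum_le _ _).trans_lt
    ((Finset.sup_lt_iff <| WithBot.bot_lt_coe g).2 fun i _ =>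
      (degree_C_mul_X_pow_le _ _).trans_lt ?_)
  have h : g - 1 - i.val < g := by have := i.2; omega
  exact WithBot.coe_lt_coe.2 h

theorem coeff_poly {g : ℕ} (b : Fin g → ℤ) (i : Fin g) :
    (poly b).coeff (g - 1 - i.val) = b i := by
  unfold poly
  have h1 : g - 1 - i.val ≠ g := by have := i.2; omega
  rw [coeff_add, coeff_X_pow, if_neg h1, zero_add, finsetSum_coeff,
    Finset.sum_eq_single i]
  · rw [coeff_C_mul, coeff_X_pow, if_pos rfl, mul_one]
  · intro j _ hj
    have h2 : g - 1 - i.val ≠ g - 1 - j.val := by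
      intro h
      apply hj
      have := i.2
      have := j.2
      exact Fin.ext (by omega)
    rw [coeff_C_mul, coeff_X_pow, if_neg h2, mul_zero]
  · intro h
    exact absurd (Finset.mem_univ _) h

end UPPER_

/-- UPPER -/
theorem p_UPPER : T_UPPER := by
  intro g q b hb i
  have hm : (poly b).Monic := monic_X_pow_add (UPPER_.low_deg b)
  have hn : (poly b).natDegree = g := by
    apply natDegree_eq_of_degree_eq_some
    unfold poly
    rw [degree_add_eq_left_of_degree_lt, degree_X_pow]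
    rw [degree_X_pow]
    exact UPPER_.low_deg b
  have hroot : ∀ z ∈ (Polynomial.map (Int.castRingHom ℂ) (poly b)).roots, ‖z‖ ≤ 2 * √q := by
    intro z hz
    have h1 : eval z (Polynomial.map (Int.castRingHom ℂ) (poly b)) = 0 := (mem_roots'.1 hz).2
    have h2 : aeval z (poly b) = 0 := by
      rw [aeval_def, ← eval_map]
      exact h1
    obtain ⟨y, hy, hy2⟩ := hb z h2
    rw [hy, Complex.norm_real, Real.norm_eq_abs]
    have h3 : y ^ 2 ≤ (2 * √q) ^ 2 := by
      rw [mul_pow, Real.sq_sqrt (Nat.cast_nonneg q)]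
      linarith
    exact abs_le_of_sq_le_sq h3 (by positivity)
  have h1 := coeff_le_of_roots_le (f := Int.castRingHom ℂ) (g - 1 - i.val) hm
    (IsAlgClosed.splits _) hroot
  rw [coeff_map, UPPER_.coeff_poly, hn] at h1
  have h2 : ‖(Int.castRingHom ℂ) (b i)‖ = |(b i : ℝ)| := by
    rw [eq_intCast, Complex.norm_intCast]
  rw [h2] at h1
  have hi := i.2
  have h3 : g - (g - 1 - i.val) = i.val + 1 := by omega
  rw [h3] at h1
  have h4 : ((g.choose (g - 1 - i.val) : ℕ) : ℝ) ≤ 2 ^ g := by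
    exact_mod_cast Nat.choose_le_two_pow g (g - 1 - i.val)
  have h5 : (2 : ℝ) ^ (i.val + 1) ≤ 2 ^ g := pow_le_pow_right₀ (by norm_num) (by omega)
  have h6 : (4 : ℝ) ^ g = 2 ^ g * 2 ^ g := by
    rw [← mul_pow]; norm_num
  have h7 : 0 ≤ √(q : ℝ) ^ (i.val + 1) := by positivity
  calc |(b i : ℝ)| ≤ (2 * √q) ^ (i.val + 1) * (g.choose (g - 1 - i.val) : ℕ) := h1
    _ = (2 : ℝ) ^ (i.val + 1) * (g.choose (g - 1 - i.val) : ℕ) * √q ^ (i.val + 1) := by
        rw [mul_pow]; ring
    _ ≤ 2 ^ g * 2 ^ g * √q ^ (i.val + 1) :=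
        mul_le_mul_of_nonneg_right (mul_le_mul h5 h4 (Nat.cast_nonneg _) (by positivity)) h7
    _ = 4 ^ g * √q ^ (i.val + 1) := by rw [h6]

end Pool.Agent.AWP
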